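import Pool.Statements.S01012
import Mathlib

/-!
The ring `R` is the localization of `ℤ[i][X]` at the maximal ideal `(1 + i, X)`, a regular local ring of
dimension two whose residue field has two elements. In its fraction field every element is a sum of two
squares. The element `2 X = (1 + X)² + i² + (i X)²` is a sum of squares in `R`, and it is not a sum of
two squares in `R`.
-/

set_option autoImplicit false
open Pool Pool.MP_293fae_al

namespace Pool.Agent.S01012

open Polynomial

/-- `ℤ[i] → ℤ/2`, `a + b i ↦ a + b`. -/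
noncomputable def phi : GaussianInt →+* ZMod 2 :=
  Zsqrtd.lift ⟨(1 : ZMod 2), by decide⟩

lemma phi_apply (z : GaussianInt) : phi z = (z.re : ZMod 2) + (z.im : ZMod 2) := by
  simp [phi]

/-- the element `1 + i` -/
def pi0 : GaussianInt := ⟨1, 1⟩

/-- the element `i` -/
def I0 : GaussianInt := ⟨0, 1⟩

lemma pi0_sq : pi0 * pi0 = 2 * I0 := by decide

lemma I0_sq : I0 * I0 = -1 := by decide

lemma pi0_ne : pi0 ≠ 0 := by decide

lemma phi_pi0 : phi pi0 = 0 := by
  rw [phi_apply]
  decide

lemma dvd_iff (z : GaussianInt) : pi0 ∣ z ↔ phi z = 0 := by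
  constructor
  · rintro ⟨w, rfl⟩
    rw [map_mul, phi_pi0, zero_mul]
  · intro h
    rw [phi_apply] at h
    have h2 : ((z.re + z.im : ℤ) : ZMod 2) = 0 := by push_cast; exact h
    rw [ZMod.intCast_zmod_eq_zero_iff_dvd] at h2
    obtain ⟨c, hc⟩ := h2
    have hc' : z.re + z.im = 2 * c := by exact_mod_cast hc
    refine ⟨⟨c, z.im - c⟩, ?_⟩
    apply Zsqrtd.ext
    · simp only [pi0, Zsqrtd.re_mul]; linarith
    · simp only [pi0, Zsqrtd.im_mul]; linarith

lemma prime_pi0 : Prime pi0 := by
  refine ⟨pi0_ne, ?_, ?_⟩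
  · intro h
    have h1 := h.map phi
    rw [phi_pi0] at h1
    exact not_isUnit_zero h1
  · intro a b hab
    rw [dvd_iff, map_mul] at hab
    rw [dvd_iff, dvd_iff]
    exact mul_eq_zero.mp hab

/-- `ℤ[i][X]` -/
abbrev A : Type := GaussianInt[X]

/-- `ℤ[i][X] → ℤ/2` -/
noncomputable def psi : A →+* ZMod 2 := (Polynomial.eval₂RingHom phi 0)

lemma psi_C (z : GaussianInt) : psi (C z) = phi z := by simp [psi]

lemma psi_X : psi X = 0 := by simp [psi]

/-- the maximal ideal `(1 + i, X)` -/
noncomputable def P : Ideal A := RingHom.ker psi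

instance : P.IsPrime := RingHom.ker_isPrime psi

lemma mem_P (p : A) : p ∈ P ↔ psi p = 0 := RingHom.mem_ker

lemma P_eq : P = Ideal.span {C pi0, X} := by
  apply le_antisymm
  · intro p hp
    rw [mem_P] at hp
    rw [← Polynomial.divX_mul_X_add p]
    rw [← Polynomial.divX_mul_X_add p, map_add, map_mul, psi_X, mul_zero, zero_add, psi_C,
      ← dvd_iff] at hp
    refine Ideal.add_mem _ (Ideal.mul_mem_left _ _ (Ideal.subset_span (by simp))) ?_
    obtain ⟨w, hw⟩ := hp
    rw [hw, C_mul]
    exact Ideal.mul_mem_right _ _ (Ideal.subset_span (by simp))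
  · rw [Ideal.span_le]
    rintro x (rfl | rfl)
    · change C pi0 ∈ P
      rw [mem_P, psi_C, phi_pi0]
    · change X ∈ P
      rw [mem_P, psi_X]

/-- the local ring -/
abbrev R : Type := Localization.AtPrime P

lemma span_X_prime : (Ideal.span {(X : A)}).IsPrime :=
  (Ideal.span_singleton_prime X_ne_zero).mpr prime_X

lemma two_le_height : 2 ≤ P.height := by
  have h1 := span_X_prime
  have h2 : (⊥ : Ideal A) < Ideal.span {(X : A)} := by
    rw [bot_lt_iff_ne_bot, Ne, Ideal.span_singleton_eq_bot]
    exact X_ne_zero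
  have h3 : Ideal.span {(X : A)} < P := by
    rw [lt_iff_le_and_ne]
    constructor
    · rw [P_eq]
      exact Ideal.span_mono (by simp)
    · intro h
      have h4 : C pi0 ∈ Ideal.span {(X : A)} := by
        rw [h, P_eq]
        exact Ideal.subset_span (by simp)
      rw [Ideal.mem_span_singleton, X_dvd_iff] at h4
      simp [pi0_ne] at h4
  have h4 := Ideal.height_add_one_le_of_lt_of_isPrime h2
  have h5 := Ideal.height_add_one_le_of_lt_of_isPrime h3
  rw [Ideal.height_bot, zero_add] at h4
  calc (2 : ℕ∞) = 1 + 1 := by norm_num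
    _ ≤ (Ideal.span {(X : A)}).height + 1 := by gcongr
    _ ≤ _ := h5

lemma height_le_two : P.height ≤ 2 := by
  have h1 : P ≠ ⊤ := Ideal.IsPrime.ne_top inferInstance
  have h2 := Ideal.height_le_spanFinrank P h1
  have h3 : P.spanFinrank ≤ 2 := by
    rw [P_eq]
    refine (Submodule.spanFinrank_span_le_ncard_of_finite (by simp)).trans ?_
    refine (Set.ncard_insert_le _ _).trans ?_
    rw [Set.ncard_singleton]
  exact h2.trans (by exact_mod_cast h3)

lemma dim_R : ringKrullDim R = 2 := by
  rw [IsLocalization.AtPrime.ringKrullDim_eq_height P R]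
  have : P.height = 2 := le_antisymm height_le_two two_le_height
  rw [this]
  rfl

lemma max_R : ∃ a b : R, IsLocalRing.maximalIdeal R = Ideal.span {a, b} := by
  refine ⟨algebraMap A R (C pi0), algebraMap A R X, ?_⟩
  have h1 : IsLocalRing.maximalIdeal R = Ideal.map (algebraMap A R) P :=
    Localization.AtPrime.map_eq_maximalIdeal.symm
  rw [h1]
  have h2 : Ideal.map (algebraMap A R) P = Ideal.map (algebraMap A R) (Ideal.span {C pi0, X}) :=
    congrArg _ P_eq
  rw [h2, Ideal.map_span, Set.image_pair]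

/-- the key computation in `ℤ[i][X]` -/
lemma key (a b s : A) (h : a ^ 2 + b ^ 2 = 2 * X * s ^ 2) (hs : s ∉ P) : False := by
  set u := a + C I0 * b with hu
  set v := a - C I0 * b with hv
  have hI : (C I0 : A) * C I0 = -1 := by rw [← C_mul, I0_sq]; simp
  have hpi : (C pi0 : A) * C pi0 = 2 * C I0 := by
    rw [← C_mul, pi0_sq, C_mul]; rfl
  have hpp : Prime (C pi0 : A) := prime_C_iff.mpr prime_pi0
  have huv : u * v = 2 * X * s ^ 2 := by
    rw [← h, hu, hv]
    linear_combination (-b ^ 2) * hI
  have hsub : u - v = C pi0 * (C pi0 * b) := by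
    rw [← mul_assoc, hpi, hu, hv]; ring
  have h2 : (2 : A) = C pi0 * (C pi0 * (- C I0)) := by
    rw [← mul_assoc, hpi]
    linear_combination 2 * hI
  have hdiv : C pi0 ∣ u * v := by
    rw [huv, h2]
    exact ⟨C pi0 * (- C I0) * X * s ^ 2, by ring⟩
  have hboth : C pi0 ∣ u ∧ C pi0 ∣ v := by
    rcases hpp.dvd_or_dvd hdiv with h1 | h1
    · refine ⟨h1, ?_⟩
      have : v = u - C pi0 * (C pi0 * b) := by rw [← hsub]; ring
      rw [this]
      exact dvd_sub h1 (Dvd.intro _ rfl)
    · refine ⟨?_, h1⟩
      have : u = v + C pi0 * (C pi0 * b) := by rw [← hsub]; ring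
      rw [this]
      exact dvd_add h1 (Dvd.intro _ rfl)
  obtain ⟨⟨u', hu'⟩, ⟨v', hv'⟩⟩ := hboth
  have hne : (C pi0 : A) ≠ 0 := hpp.ne_zero
  have h3 : u' * v' = (- C I0) * X * s ^ 2 := by
    have : C pi0 * (C pi0 * (u' * v')) = C pi0 * (C pi0 * ((- C I0) * X * s ^ 2)) := by
      calc C pi0 * (C pi0 * (u' * v')) = u * v := by rw [hu', hv']; ring
        _ = 2 * X * s ^ 2 := huv
        _ = _ := by rw [h2]; ring
    exact mul_left_cancel₀ hne (mul_left_cancel₀ hne this)
  have h4 : u' - v' = C pi0 * b := by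
    have : C pi0 * (u' - v') = C pi0 * (C pi0 * b) := by
      rw [← hsub, hu', hv']; ring
    exact mul_left_cancel₀ hne this
  have hXdiv : X ∣ u' * v' := by
    rw [h3]
    exact ⟨(- C I0) * s ^ 2, by ring⟩
  have hIu : psi (- C I0) ≠ 0 := by
    rw [map_neg, psi_C, phi_apply]
    decide
  have hs' : psi s ≠ 0 := fun h => hs ((mem_P s).mpr h)
  have h5 : psi u' = psi v' := by
    have := congrArg psi h4
    rw [map_sub, map_mul, psi_C, phi_pi0, zero_mul] at this
    exact sub_eq_zero.mp this
  rcases prime_X.dvd_or_dvd hXdiv with ⟨w, hw⟩ | ⟨w, hw⟩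
  · have h6 : w * v' = (- C I0) * s ^ 2 := by
      have : X * (w * v') = X * ((- C I0) * s ^ 2) := by
        calc X * (w * v') = u' * v' := by rw [hw]; ring
          _ = _ := by rw [h3]; ring
      exact mul_left_cancel₀ X_ne_zero this
    have h7 := congrArg psi h6
    rw [map_mul, map_mul, ← h5, hw, map_mul, psi_X, zero_mul, mul_zero, map_pow] at h7
    exact mul_ne_zero hIu (pow_ne_zero 2 hs') h7.symm
  · have h6 : w * u' = (- C I0) * s ^ 2 := by
      have : X * (w * u') = X * ((- C I0) * s ^ 2) := by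
        calc X * (w * u') = u' * v' := by rw [hw]; ring
          _ = _ := by rw [h3]; ring
      exact mul_left_cancel₀ X_ne_zero this
    have h7 := congrArg psi h6
    rw [map_mul, map_mul, h5, hw, map_mul, psi_X, zero_mul, mul_zero, map_pow] at h7
    exact mul_ne_zero hIu (pow_ne_zero 2 hs') h7.symm

lemma inj : Function.Injective (algebraMap A R) :=
  IsLocalization.injective R P.primeCompl_le_nonZeroDivisors

lemma not_two (x y : R) (h : algebraMap A R (2 * X) = x ^ 2 + y ^ 2) : False := by
  obtain ⟨a, b, s, rfl, rfl⟩ : ∃ (a b : A) (s : P.primeCompl), x = IsLocalization.mk' R a s ∧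
      y = IsLocalization.mk' R b s := by
    obtain ⟨a, s, rfl⟩ := IsLocalization.exists_mk'_eq P.primeCompl x
    obtain ⟨b, t, rfl⟩ := IsLocalization.exists_mk'_eq P.primeCompl y
    refine ⟨a * t, b * s, s * t, ?_, ?_⟩
    · rw [IsLocalization.mk'_cancel]
    · rw [mul_comm s t, IsLocalization.mk'_cancel]
  have hs : algebraMap A R s * IsLocalization.mk' R a s = algebraMap A R a := by
    rw [mul_comm, IsLocalization.mk'_spec]
  have hs' : algebraMap A R s * IsLocalization.mk' R b s = algebraMap A R b := by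
    rw [mul_comm, IsLocalization.mk'_spec]
  have h1 : algebraMap A R (a ^ 2 + b ^ 2) = algebraMap A R (2 * X * (s : A) ^ 2) := by
    rw [map_mul, h, map_add, map_pow, map_pow, ← hs, ← hs', map_pow]
    ring
  exact key a b s (inj h1) s.2

lemma generic (S : Type) [CommRing S] [IsDomain S] [IsLocalRing S] [IsNoetherianRing S]
    (hdim : ringKrullDim S = 2) (hmax : ∃ a b : S, IsLocalRing.maximalIdeal S = Ideal.span {a, b})
    (j t : S) (hj : j * j = -1) (h2 : (2 : S) ≠ 0) (ht : IsSumSq t)
    (hnot : ∀ x y : S, t ≠ x ^ 2 + y ^ 2) :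
    ¬ (∀ (R : Type) [CommRing R] [IsDomain R] [IsLocalRing R] [IsNoetherianRing R],
      ringKrullDim R = 2 →
      (∃ a b : R, IsLocalRing.maximalIdeal R = Ideal.span {a, b}) →
      ∀ (K : Type) [Field K] [Algebra R K] [IsFractionRing R K],
      ∀ n : ℕ,
        ((∀ x : R, IsSumSq x → ∃ f : Fin n → R, x = ∑ i, f i ^ 2) ↔
          (∀ x : K, IsSumSq x → ∃ f : Fin n → K, x = ∑ i, f i ^ 2))) := by
  intro h
  have h1 := (h S hdim hmax (FractionRing S) 2).mpr ?_
  · obtain ⟨f, hf⟩ := h1 t ht
    rw [Fin.sum_univ_two] at hf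
    exact hnot _ _ hf
  · intro x _
    have hjj : algebraMap S (FractionRing S) j * algebraMap S (FractionRing S) j = -1 := by
      rw [← map_mul, hj, map_neg, map_one]
    have h3 : (2 : FractionRing S) ≠ 0 := by
      intro h4
      apply h2
      apply IsFractionRing.injective S (FractionRing S)
      rw [map_ofNat, map_zero]
      exact h4
    refine ⟨![(x + 1) / 2, algebraMap S (FractionRing S) j * (x - 1) / 2], ?_⟩
    rw [Fin.sum_univ_two]
    simp only [Matrix.cons_val_zero, Matrix.cons_val_one]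
    field_simp
    linear_combination (-(x - 1) ^ 2) * hjj

/-- The negation of the preceding statement: For every 2-dimensional regular local ring R with fraction field K, and every n, every sum of squares in R is a sum of n squares iff the same holds in K; that is, the Pythagoras numbers of R and K agree. -/
theorem result :
    ¬ (∀ (R : Type) [CommRing R] [IsDomain R] [IsLocalRing R] [IsNoetherianRing R],
      ringKrullDim R = 2 →
      (∃ a b : R, IsLocalRing.maximalIdeal R = Ideal.span {a, b}) →
      ∀ (K : Type) [Field K] [Algebra R K] [IsFractionRing R K],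
      ∀ n : ℕ,
        ((∀ x : R, IsSumSq x → ∃ f : Fin n → R, x = ∑ i, f i ^ 2) ↔
          (∀ x : K, IsSumSq x → ∃ f : Fin n → K, x = ∑ i, f i ^ 2))) := by
  have hR : IsDomain R := IsLocalization.isDomain_localization P.primeCompl_le_nonZeroDivisors
  have hI : (C I0 : A) * C I0 = -1 := by rw [← C_mul, I0_sq]; simp
  refine generic R dim_R max_R (algebraMap A R (C I0)) (algebraMap A R (2 * X)) ?_ ?_ ?_ ?_
  · rw [← map_mul, hI, map_neg, map_one]
  · intro h2
    have h3 : algebraMap A R 2 = algebraMap A R 0 := by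
      rw [map_ofNat, map_zero]; exact h2
    have h4 := inj h3
    have h5 : (C 2 : A) = C 0 := by rw [C_0]; exact h4
    exact absurd (C_injective h5) (by decide)
  · have h3 : algebraMap A R (2 * X) = algebraMap A R (1 + X) * algebraMap A R (1 + X) +
        (algebraMap A R (C I0) * algebraMap A R (C I0) +
          (algebraMap A R (C I0 * X) * algebraMap A R (C I0 * X) + 0)) := by
      have h4 : (2 * X : A) = (1 + X) * (1 + X) + (C I0 * C I0 + (C I0 * X * (C I0 * X) + 0)) := by
        linear_combination (-1 - X ^ 2) * hI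
      rw [h4]
      simp only [map_add, map_mul, map_zero]
    rw [h3]
    exact IsSumSq.sq_add _ (IsSumSq.sq_add _ (IsSumSq.sq_add _ IsSumSq.zero))
  · exact fun x y h => not_two x y h

end Pool.Agent.S01012
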