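import Pool.Statements.S02197
import Pool.Agent.K6.H89.VU.Model

set_option autoImplicit false
open Pool Pool.MP_89edc2_al

namespace Pool.Agent.S02197

/-- There is a finitely presented group with a finite generating set whose word balls grow at least like c^k for some c>1, yet for every c>1 some finite generating set has a ball of radius k with fewer than c^k elements. -/
theorem result :
    ∃ (G : Type) (_ : Group G),
      (∃ (n : ℕ) (rels : Finset (FreeGroup (Fin n))),
        Nonempty (G ≃* PresentedGroup (rels : Set (FreeGroup (Fin n))))) ∧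
      (∃ (S : Finset G), Subgroup.closure (S : Set G) = ⊤ ∧
        ∃ c : ℝ, 1 < c ∧ ∀ k : ℕ,
          c ^ k ≤ (Set.ncard {g : G | ∃ l : List G, l.length ≤ k ∧
            (∀ x ∈ l, x ∈ S ∨ x⁻¹ ∈ S) ∧ l.prod = g} : ℝ)) ∧
      (∀ c : ℝ, 1 < c → ∃ (S : Finset G), Subgroup.closure (S : Set G) = ⊤ ∧
        ∃ k : ℕ,
          (Set.ncard {g : G | ∃ l : List G, l.length ≤ k ∧
            (∀ x ∈ l, x ∈ S ∨ x⁻¹ ∈ S) ∧ l.prod = g} : ℝ) < c ^ k) := by
  refine ⟨Pool.Agent.K6.H89.VU.TV, inferInstance,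
    ⟨6, Pool.Agent.K6.H89.VU.rels, ⟨MulEquiv.refl _⟩⟩, Pool.Agent.K6.H89.VU.exp_growth, fun c hc => ?_⟩
  exact Pool.Agent.K6.H89.VU.VSys.slow Pool.Agent.K6.H89.VU.tv Pool.Agent.K6.H89.VU.tv_closure hc

end Pool.Agent.S02197
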