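import Pool.Statements.S02909
-- import your own Pool.Agent.* helpers here
import Pool.Agent.K6.H1.Alt.PartI
import Pool.Agent.K6.H1.Alt.PartII
import Pool.Agent.K6.H1.Alt.PartIII

set_option autoImplicit false
open Pool Pool.MP_bd8d3e_al

namespace Pool.Agent.S02909

/-- Every alternative nil ring whose complete first-order theory in the language of 0, minus, plus and times is countably categorical is solvable: some derived power A^(k), built by repeatedly taking additive spans of products, is zero. -/
theorem result :
    ∀ (A : Type) [NonUnitalNonAssocRing A]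
      (S : (FirstOrder.Language.mk
              (fun n : ℕ => Fin (if n = 2 then 2 else if n ≤ 1 then 1 else 0))
              (fun _ : ℕ => Empty)).Structure A),
      S = { funMap := fun {n} i x =>
              if n = 2 ∧ Fin.val i = 1 then (List.ofFn x).headD 0 * (List.ofFn x).getLastD 0
              else if n = 1 then -(∑ j, x j) else ∑ j, x j,
            RelMap := fun {n} r _ => Empty.elim r } →
      (∀ x y : A, (x * x) * y = x * (x * y) ∧ (y * x) * x = y * (x * x)) →
      (∀ x : A, ∃ n : ℕ, (fun y => y * x)^[n] x = 0) →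
      Cardinal.Categorical Cardinal.aleph0.{0}
        (FirstOrder.Language.completeTheory
          (FirstOrder.Language.mk
              (fun n : ℕ => Fin (if n = 2 then 2 else if n ≤ 1 then 1 else 0))
              (fun _ : ℕ => Empty)) A) →
      ∀ D : ℕ → AddSubgroup A, D 0 = ⊤ →
        (∀ k : ℕ, D (k + 1) = AddSubgroup.closure {z : A | ∃ u ∈ D k, ∃ v ∈ D k, u * v = z}) →
        ∃ k : ℕ, D k = ⊥ := by
  intro A _ S hS halt hnil hcat D hD0 hD
  obtain ⟨B, hB, hBalt, hBnil, hBO, hBs⟩ :=
    Pool.Agent.K6.H1.Alt.partI A S hS halt hnil hcat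
  have h1 : Pool.Agent.K6.H1.Alt.Solv (⊤ : AddSubgroup B) :=
    Pool.Agent.K6.H1.Alt.assembly B hBalt hBnil hBO
      (fun E _ hEalt hEnil hEO hEs => Pool.Agent.K6.H1.Alt.partIII E hEalt hEnil hEO
        (Pool.Agent.K6.H1.Alt.partII E hEO hEs))
  obtain ⟨k, hk⟩ := hBs h1
  have h2 : ∀ k : ℕ, D k = Pool.Agent.K6.H1.Alt.derS (⊤ : AddSubgroup A) k := by
    intro k
    induction k with
    | zero => exact hD0
    | succ k ih =>
      rw [hD k, ih]
      rfl
  exact ⟨k, by rw [h2 k, hk]⟩

end Pool.Agent.S02909
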