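import Pool.Statements.S04009
import Pool.Agent.H535R3.JY

set_option autoImplicit false
open Filter Topology
open Pool Pool.MP_1f2107_an

namespace Pool.Agent.S04009

/-- Comparison of two solutions whose right hand sides are ordered. -/
lemma comparison {B B' A ω : ℝ} (hB : B ≤ B') {f g : ℝ → ℝ}
    (hf : ∀ t : ℝ, HasDerivAt f (-Real.sin (f t) + B + A * Real.cos (ω * t)) t)
    (hg : ∀ t : ℝ, HasDerivAt g (-Real.sin (g t) + B' + A * Real.cos (ω * t)) t)
    (h0 : f 0 ≤ g 0) (t : ℝ) (ht : 0 ≤ t) : f t ≤ g t := by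
  have key : ∀ δ : ℝ, 0 < δ → f t - g t ≤ δ * Real.exp (2 * t) := by
    intro δ hδ
    have hd : ∀ x : ℝ, HasDerivAt (fun s => f s - g s)
        ((-Real.sin (f x) + B + A * Real.cos (ω * x)) -
          (-Real.sin (g x) + B' + A * Real.cos (ω * x))) x := fun x => (hf x).sub (hg x)
    have he : ∀ x : ℝ, HasDerivAt (fun s : ℝ => δ * Real.exp (2 * s))
        (δ * (Real.exp (2 * x) * 2)) x := by
      intro x
      have h1 : HasDerivAt (fun s : ℝ => 2 * s) 2 x := by
        simpa using (hasDerivAt_id x).const_mul (2 : ℝ)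
      exact (h1.exp).const_mul δ
    refine image_le_of_deriv_right_lt_deriv_boundary' (a := 0) (b := t)
      (f := fun s => f s - g s)
      (f' := fun x => (-Real.sin (f x) + B + A * Real.cos (ω * x)) -
          (-Real.sin (g x) + B' + A * Real.cos (ω * x)))
      (B := fun s : ℝ => δ * Real.exp (2 * s)) (B' := fun x => δ * (Real.exp (2 * x) * 2))
      (fun x _ => (hd x).continuousAt.continuousWithinAt)
      (fun x _ => (hd x).hasDerivWithinAt) ?_
      (fun x _ => (he x).continuousAt.continuousWithinAt)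
      (fun x _ => (he x).hasDerivWithinAt) ?_ (Set.right_mem_Icc.2 ht)
    · rw [mul_zero, Real.exp_zero, mul_one]
      linarith
    · intro x _ hx
      have hpos : 0 < δ * Real.exp (2 * x) := mul_pos hδ (Real.exp_pos _)
      have hs : |Real.sin (g x) - Real.sin (f x)| ≤ |g x - f x| := by
        have := Real.lipschitzWith_sin.dist_le_mul (g x) (f x)
        simpa [Real.dist_eq] using this
      have h2 : |g x - f x| = f x - g x := by
        rw [abs_sub_comm, abs_of_pos (by have hx' : f x - g x = δ * Real.exp (2 * x) := hx; linarith)]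
      have h3 := le_abs_self (Real.sin (g x) - Real.sin (f x))
      have hx' : f x - g x = δ * Real.exp (2 * x) := hx
      linarith
  by_contra hcon
  push Not at hcon
  have hE := Real.exp_pos (2 * t)
  have h1 := key ((f t - g t) / (2 * Real.exp (2 * t))) (by apply div_pos; linarith; positivity)
  have h2 : (f t - g t) / (2 * Real.exp (2 * t)) * Real.exp (2 * t) = (f t - g t) / 2 := by
    field_simp
  rw [h2] at h1
  linarith

/-- For a nonpositive constant term no solution has a positive rotation number. -/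
lemma nonpos_case {ω : ℝ} (hω : 0 < ω) {B A : ℝ} (hB : B ≤ 0) {φ : ℝ → ℝ}
    (hφ : ∀ t : ℝ, HasDerivAt φ (-Real.sin (φ t) + B + A * Real.cos (ω * t)) t) {ρ : ℝ}
    (hρ : 0 < ρ) : ¬ Tendsto (fun t : ℝ => φ t / (ω * t)) atTop (𝓝 ρ) := by
  intro hT
  obtain ⟨k, hk⟩ := exists_nat_ge ((φ 0 + φ (Real.pi / ω)) / (2 * Real.pi))
  have hpi := Real.pi_pos
  have hk' : φ 0 + φ (Real.pi / ω) ≤ 2 * Real.pi * k := by
    rw [div_le_iff₀ (by positivity)] at hk
    linarith
  have hg : ∀ t : ℝ, HasDerivAt (fun s => -φ (s + Real.pi / ω) + 2 * Real.pi * k)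
      (-Real.sin (-φ (t + Real.pi / ω) + 2 * Real.pi * k) + -B + A * Real.cos (ω * t)) t := by
    intro t
    have h1 := ((hφ (t + Real.pi / ω)).comp_add_const t (Real.pi / ω)).neg.add_const
      (2 * Real.pi * (k : ℝ))
    refine h1.congr_deriv ?_
    have h2 : Real.sin (-φ (t + Real.pi / ω) + 2 * Real.pi * k) = -Real.sin (φ (t + Real.pi / ω)) := by
      rw [show -φ (t + Real.pi / ω) + 2 * Real.pi * (k : ℝ) =
        -φ (t + Real.pi / ω) + (k : ℝ) * (2 * Real.pi) by ring, Real.sin_add_nat_mul_two_pi,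
        Real.sin_neg]
    have h3 : Real.cos (ω * (t + Real.pi / ω)) = -Real.cos (ω * t) := by
      rw [show ω * (t + Real.pi / ω) = ω * t + Real.pi by field_simp, Real.cos_add_pi]
    rw [h2, h3]
    ring
  have hle : ∀ t : ℝ, 0 ≤ t → φ t ≤ -φ (t + Real.pi / ω) + 2 * Real.pi * k := by
    intro t ht
    refine comparison (B := B) (B' := -B) (by linarith) hφ hg ?_ t ht
    simp only [zero_add]
    linarith
  have hden : Tendsto (fun t : ℝ => ω * t) atTop atTop :=
    tendsto_id.const_mul_atTop hω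
  have hinf : Tendsto φ atTop atTop := by
    have h1 : Tendsto (fun t : ℝ => φ t / (ω * t) * (ω * t)) atTop atTop :=
      hT.pos_mul_atTop hρ hden
    refine h1.congr' ?_
    filter_upwards [eventually_gt_atTop 0] with t ht
    have : ω * t ≠ 0 := by positivity
    field_simp
  have hinf2 : Tendsto (fun t => φ (t + Real.pi / ω)) atTop atTop :=
    hinf.comp (tendsto_atTop_add_const_right _ _ tendsto_id)
  obtain ⟨t, h1, h2, h3⟩ := ((hinf.eventually_gt_atTop (2 * Real.pi * k)).and
    ((hinf2.eventually_gt_atTop 0).and (eventually_ge_atTop 0))).exists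
  have := hle t h3
  linarith

/-- For every ω>0, integer r≥1 and real A, no solution of φ' = −sin φ + ω(r−2) + A cos(ωt) has rotation number φ(t)/(ωt) → r; i.e. the phase-lock area L_r misses the line B = ω(r−2). -/
theorem result :
    ∀ ω : ℝ, 0 < ω → ∀ r : ℕ, 1 ≤ r → ∀ A : ℝ, ∀ φ : ℝ → ℝ,
      (∀ t : ℝ, HasDerivAt φ
        (-Real.sin (φ t) + ω * ((r : ℝ) - 2) + A * Real.cos (ω * t)) t) →
      ¬ Tendsto (fun t : ℝ => φ t / (ω * t)) atTop (𝓝 (r : ℝ)) := by
  intro ω hω r hr A φ hφ hT
  have hr1 : (1 : ℝ) ≤ r := by exact_mod_cast hr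
  rcases Nat.lt_or_ge r 3 with h3 | h3
  · have hB : ω * ((r : ℝ) - 2) ≤ 0 := by
      have h4 : (r : ℝ) ≤ 2 := by exact_mod_cast Nat.lt_succ_iff.1 h3
      nlinarith
    exact nonpos_case hω hB hφ (by linarith) hT
  · obtain ⟨m, rfl⟩ : ∃ m, r = m + 2 := ⟨r - 2, by omega⟩
    have hm : 1 ≤ m := by omega
    have hψ : ∀ τ : ℝ, HasDerivAt (fun s => φ (s / ω))
        (1 / ω * (-Real.sin (φ (τ / ω)) + ω * m + A * Real.cos τ)) τ := by
      intro τ
      have h1 : HasDerivAt (fun s : ℝ => s / ω) (1 / ω) τ := by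
        simpa using (hasDerivAt_id τ).div_const ω
      have h2 := (hφ (τ / ω)).scomp τ h1
      refine h2.congr_deriv ?_
      have h3 : ω * (τ / ω) = τ := by field_simp
      rw [h3, smul_eq_mul]
      push_cast
      ring
    have hlim : Tendsto (fun τ : ℝ => φ (τ / ω) / τ) atTop (𝓝 ((m + 2 : ℕ) : ℝ)) := by
      have h1 : Tendsto (fun s : ℝ => s / ω) atTop atTop :=
        tendsto_id.atTop_div_const hω
      have h2 := hT.comp h1
      refine h2.congr ?_
      intro τ
      simp only [Function.comp]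
      have h3 : ω * (τ / ω) = τ := by field_simp
      rw [h3]
    have h5 := H535R3.axis_main ω hω m hm A (fun s => φ (s / ω)) hψ _ hlim
    push_cast at h5
    linarith

end Pool.Agent.S04009
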