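import Pool.Statements.S04319
import Pool.Agent.K6.H55.NS.V10

set_option autoImplicit false
open Pool Pool.MP_35c333_an

namespace Pool.Agent.S04319

/-- For G/Γ with G a nilpotent Lie group, Γ discrete cocompact, and translation by g with every power minimal: for integer polynomials p_i with p_i(0)=0, k≥1, 0≤j<k, and nonempty open U, some n≥1 has x in U with g^{p_i(kn+j)}x in U for all i. -/
theorem result :
  ∀ (E : Type) [NormedAddCommGroup E] [NormedSpace ℝ E] [FiniteDimensional ℝ E]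
    (G : Type) [Group G] [TopologicalSpace G] [ChartedSpace E G]
    [LieGroup (modelWithCornersSelf ℝ E) ((⊤ : ℕ∞) : WithTop ℕ∞) G] [Group.IsNilpotent G]
    (Γ : Subgroup G), DiscreteTopology Γ → CompactSpace (G ⧸ Γ) →
    ∀ g : G, (∀ m : ℕ, 0 < m → ∀ x : G ⧸ Γ,
        Dense (Set.range (fun n : ℤ => (g ^ m) ^ n • x))) →
    ∀ (d : ℕ) (p : Fin d → Polynomial ℤ), (∀ i, (p i).eval 0 = 0) →
    ∀ k : ℕ, 0 < k → ∀ j : ℕ, j < k →
    ∀ U : Set (G ⧸ Γ), IsOpen U → U.Nonempty →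
    ∃ n : ℕ, 0 < n ∧ ∃ x ∈ U, ∀ i, g ^ ((p i).eval ((k : ℤ) * (n : ℤ) + (j : ℤ))) • x ∈ U := by
  intro E _ _ _ G _ _ _ _ _ Γ hd hcomp g hmin d p hp k hk j _ U hU hU0
  have htg : IsTopologicalGroup G :=
    topologicalGroup_of_lieGroup (modelWithCornersSelf ℝ E) ((⊤ : ℕ∞) : WithTop ℕ∞)
  have ht1 : T1Space G := ChartedSpace.t1Space E G
  have hlc : LocallyCompactSpace G := ChartedSpace.locallyCompactSpace E G
  have hln : LocallyConnectedSpace G := ChartedSpace.locallyConnectedSpace E G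
  have hcE : CompleteSpace E := FiniteDimensional.complete ℝ E
  obtain ⟨ch⟩ := Pool.Agent.K6.H55.NS.exists_chart (E := E) (G := G)
  exact Pool.Agent.K6.H55.NS.main ch (Pool.Agent.V11106.rooted_nhds (E := E)) Γ hd hcomp g hmin d p hp k hk j
    U hU hU0

end Pool.Agent.S04319
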