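import Pool.Statements.S05228
import Pool.Agent.H345R3.HomP

set_option autoImplicit false
open Pool Pool.MP_8222c7_an

namespace Pool.Agent.S05228

theorem quasi_of_rad {B : Type} [NormedCommRing B] [NormedAlgebra ℂ B] (x : B)
    (hx : x ∈ Ideal.jacobson (⊥ : Ideal B)) : quasispectrum ℂ x ⊆ {0} := by
  rw [quasispectrum_eq_spectrum_union_zero]
  refine Set.union_subset (fun z hz => ?_) subset_rfl
  by_contra h0
  have h0' : z ≠ 0 := h0
  apply hz
  have h1 := Ideal.mem_jacobson_bot.1 hx (algebraMap ℂ B (-z⁻¹))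
  have e : algebraMap ℂ B z - x = algebraMap ℂ B z * (x * algebraMap ℂ B (-z⁻¹) + 1) := by
    have h2 : algebraMap ℂ B z * algebraMap ℂ B (-z⁻¹) = -1 := by
      rw [← map_mul, mul_neg, mul_inv_cancel₀ h0', map_neg, map_one]
    linear_combination -x * h2
  show IsUnit (algebraMap ℂ B z - x)
  rw [e]
  exact ((Ne.isUnit h0').map (algebraMap ℂ B)).mul h1

/-- The negation of the preceding statement: Every non-radical commutative amenable complex Banach algebra A has this property: two continuous homomorphisms from A into a commutative Banach algebra whose difference takes only quasinilpotent (radical) values are equal. -/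
theorem result :
    ¬ (∀ (A : Type) [NonUnitalNormedCommRing A] [NormedSpace ℂ A] [IsScalarTower ℂ A A]
      [SMulCommClass ℂ A A] [CompleteSpace A],
      (∃ a : A, ¬ quasispectrum ℂ a ⊆ {0}) →
      (∀ (E : Type) [NormedAddCommGroup E] [NormedSpace ℂ E] [CompleteSpace E]
        (l r : A →L[ℂ] (E →L[ℂ] E)),
        (∀ a b : A, l (a * b) = (l a).comp (l b)) →
        (∀ a b : A, r (a * b) = (r b).comp (r a)) →
        (∀ a b : A, (l a).comp (r b) = (r b).comp (l a)) →
        ∀ D : A →L[ℂ] (E →L[ℂ] ℂ),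
          (∀ (a b : A) (x : E), D (a * b) x = D b (r a x) + D a (l b x)) →
          ∃ f : E →L[ℂ] ℂ, ∀ (a : A) (x : E), D a x = f (r a x) - f (l a x)) →
      ∀ (B : Type) [NonUnitalNormedCommRing B] [NormedSpace ℂ B] [IsScalarTower ℂ B B]
        [SMulCommClass ℂ B B] [CompleteSpace B]
        (φ ψ : A →ₙₐ[ℂ] B), Continuous φ → Continuous ψ →
        (∀ a : A, quasispectrum ℂ (φ a - ψ a) ⊆ {0}) → φ = ψ) := by
  intro h
  obtain ⟨A, iA, iA', hcA, -, -, hAm, B, iB, iB', hcB, -, φ, ψ, hφ, hψ, -, -, hrad, hne⟩ :=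
    Pool.Agent.H345R3.HomP.main
  have hA2 := H611R3.ZL.amenable_iff.1 hAm
  apply hne
  have hnt : Nontrivial A := by
    by_contra hcon
    rw [not_nontrivial_iff_subsingleton] at hcon
    apply hne
    ext a
    rw [Subsingleton.elim a 0, map_zero, map_zero]
  have key := h A ⟨1, fun hsub => ?_⟩ ?_ B (φ : A →ₙₐ[ℂ] B) (ψ : A →ₙₐ[ℂ] B) hφ hψ
    (fun a => quasi_of_rad _ (hrad a))
  · ext a
    exact DFunLike.congr_fun key a
  · have h1 : (1 : ℂ) ∈ quasispectrum ℂ (1 : A) := by
      apply spectrum_subset_quasispectrum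
      rw [spectrum.one_eq]
      exact Set.mem_singleton _
    exact one_ne_zero (hsub h1)
  · intro E _ _ _ l r h1 h2 h3 D hD
    exact hA2 E inferInstance inferInstance inferInstance l r
      (fun a b x => by rw [h1]; rfl) (fun a b x => by rw [h2]; rfl)
      (fun a b x => DFunLike.congr_fun (h3 a b) x) D hD

end Pool.Agent.S05228
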