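import Pool.Statements.S05792
import Pool.Agent.K6.H32.Synth
import Pool.Agent.K6.H32.Conc

set_option autoImplicit false
open scoped InnerProductSpace
open Pool Pool.MP_ace6cd_an

namespace Pool.Agent.S05792

/-- The negation of the preceding statement: For a bounded operator A on a complex Hilbert space whose closed invariant subspaces are all closed spans of eigenvectors, every operator leaving those subspaces invariant is a weak-operator limit of polynomials in A, i.e. A is reflexive. -/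
theorem result :
    ¬ (∀ (H : Type) [NormedAddCommGroup H] [InnerProductSpace ℂ H] [CompleteSpace H]
      (A : H →L[ℂ] H),
      (∀ M : Submodule ℂ H, IsClosed (M : Set H) → (∀ x ∈ M, A x ∈ M) →
        M = (Submodule.span ℂ {x : H | x ∈ M ∧ ∃ c : ℂ, A x = c • x}).topologicalClosure) →
      ∀ B : H →L[ℂ] H,
        (∀ M : Submodule ℂ H, IsClosed (M : Set H) → (∀ x ∈ M, A x ∈ M) →
          ∀ x ∈ M, B x ∈ M) →
        ∀ (s : Finset (H × H)) (ε : ℝ), 0 < ε →
          ∃ p : Polynomial ℂ, ∀ z ∈ s,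
            ‖⟪(B - Polynomial.aeval A p) z.1, z.2⟫_ℂ‖ < ε) := by
  intro hall
  have S : Pool.Agent.K6.H32.Synth.Sys Pool.Agent.K6.H32.Conc.ff Pool.Agent.K6.H32.Conc.gg
      Pool.Agent.K6.H32.Conc.zz Pool.Agent.K6.H32.Conc.al :=
    { bi := Pool.Agent.K6.H32.Conc.bi
      zz := Pool.Agent.K6.H32.Conc.inner_zz _ _ _
      zf := Pool.Agent.K6.H32.Conc.zf
      zg := Pool.Agent.K6.H32.Conc.zg
      pos := Pool.Agent.K6.H32.Conc.al_pos
      dec := Pool.Agent.K6.H32.Conc.al_dec }
  obtain ⟨A, B, h1, h2, s, ε, hε, h3⟩ := S.not_reflexive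
    (fun x y => Pool.Agent.K6.H32.Conc.strong x y)
    Pool.Agent.K6.H32.Conc.uu Pool.Agent.K6.H32.Conc.vv Pool.Agent.K6.H32.Conc.zu
    Pool.Agent.K6.H32.Conc.h0 Pool.Agent.K6.H32.Conc.h1
  obtain ⟨p, hp⟩ := hall Pool.Agent.K6.H32.Conc.HH A h1 B h2 s ε hε
  obtain ⟨v, hv, hle⟩ := h3 p
  exact absurd (hp v hv) (not_lt.2 hle)

end Pool.Agent.S05792
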