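import Pool.Statements.S06280
-- import your own Pool.Agent.* helpers here
import Pool.Agent.K6.H12.GermOrd

set_option autoImplicit false
open Pool Pool.MP_d4c9a2_an

namespace Pool.Agent.S06280

/-- The negation of the preceding statement: For every holomorphic germ f of ℂⁿ fixing 0 that is non-invertible and dominant, the orders of vanishing c(f^k) of its iterates at 0 eventually satisfy a linear recursion with integer coefficients. -/
theorem result :
    ¬ (∀ (n : ℕ) (f : (Fin n → ℂ) → (Fin n → ℂ)),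
      AnalyticAt ℂ f 0 → f 0 = 0 →
      (fderiv ℂ f 0).det = 0 →
      (∀ ε : ℝ, 0 < ε → ∃ z : Fin n → ℂ, ‖z‖ < ε ∧ (fderiv ℂ f z).det ≠ 0) →
      ∃ (d : ℕ) (a : Fin d → ℤ) (K : ℕ), ∀ k : ℕ, K ≤ k →
        ((sInf {m : ℕ | iteratedFDeriv ℂ m (f^[k + d]) 0 ≠ 0} : ℕ) : ℤ) =
          ∑ i : Fin d, a i *
            ((sInf {m : ℕ | iteratedFDeriv ℂ m (f^[k + (i : ℕ)]) 0 ≠ 0} : ℕ) : ℤ)) := by
  intro H
  obtain ⟨d, e, K, h⟩ := H 3 K6.H12.Germ.F (K6.H12.Germ.F_contDiff ⊤).contDiffAt.analyticAt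
    K6.H12.Germ.F_zero K6.H12.Germ.det_zero K6.H12.Germ.det_ne
  refine K6.H12.Germ.m_not_recursive d e K fun k hk => ?_
  have h1 := h k hk
  simp only [K6.H12.Germ.order_eq] at h1
  exact h1

end Pool.Agent.S06280
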