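import Pool.Statements.S06444
import Pool.Agent.K6.H84.ONLA
import Pool.Agent.K6.H84.ONLB

set_option autoImplicit false
open MeasureTheory
open scoped ENNReal
open Pool Pool.MP_e081a1_an

namespace Pool.Agent.S06444

/-- The negation of the preceding statement: For every p in [1,∞) other than 2, every bounded geometry metric space with the p-operator norm localization property (ℓ^p-valued L^p, all nonzero locally finite Borel measures) has Yu's property A. -/
theorem result :
    ¬ (∀ (p : ℝ≥0∞) [Fact (1 ≤ p)], p ≠ ⊤ → p ≠ 2 →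
    ∀ (X : Type) [MetricSpace X] [MeasurableSpace X] [BorelSpace X],
      (∀ R : ℝ, 0 < R → ∃ N : ℕ, ∀ x : X,
          (Metric.ball x R).Finite ∧ (Metric.ball x R).ncard ≤ N) →
      (∃ c : ℝ, 0 < c ∧ c ≤ 1 ∧ ∃ f : ℕ → ℕ, Monotone f ∧
        ∀ (ν : Measure X) [IsLocallyFiniteMeasure ν], ν ≠ 0 → ∀ r : ℕ,
          ∀ T : Lp (lp (fun _ : ℕ => ℝ) p) p ν →L[ℝ] Lp (lp (fun _ : ℕ => ℝ) p) p ν,
            (∀ x y : X, (r : ℝ) < dist x y →
              ∃ U V : Set X, IsOpen U ∧ IsOpen V ∧ x ∈ U ∧ y ∈ V ∧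
                ∀ g : Lp (lp (fun _ : ℕ => ℝ) p) p ν,
                  (∀ᵐ z ∂ν, z ∉ U → ⇑g z = 0) → ∀ᵐ z ∂ν, z ∈ V → ⇑(T g) z = 0) →
            ∃ ξ : Lp (lp (fun _ : ℕ => ℝ) p) p ν, ξ ≠ 0 ∧
              (∃ S : Set X, (∀ a ∈ S, ∀ b ∈ S, dist a b ≤ (f r : ℝ)) ∧
                ∀ᵐ z ∂ν, z ∉ S → ⇑ξ z = 0) ∧
              c * ‖T‖ * ‖ξ‖ ≤ ‖T ξ‖) →
      (∀ R : ℝ, 0 < R → ∀ ε : ℝ, 0 < ε →
        ∃ S : ℝ, ∃ A : X → Set (X × ℕ),
          (∀ x, (A x).Finite) ∧ (∀ x, (x, 0) ∈ A x) ∧
          (∀ x, ∀ w ∈ A x, dist w.1 x ≤ S) ∧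
          ∀ x y, dist x y < R →
            ((symmDiff (A x) (A y)).ncard : ℝ) < ε * ((A x ∩ A y).ncard : ℝ))) := by
  classical
  intro H
  let _ : MeasurableSpace Pool.Agent.R302.Roe.PX := borel _
  have _ : BorelSpace Pool.Agent.R302.Roe.PX := ⟨rfl⟩
  refine Pool.Agent.K6.H84.ONL.not_propA (H 1 ENNReal.one_ne_top (by norm_num)
    Pool.Agent.R302.Roe.PX ?_ ?_)
  · intro R _
    obtain ⟨N, hN⟩ := Pool.Agent.R302.Roe.bddGeom R
    refine ⟨N, fun x => ?_⟩
    have h1 : (Metric.ball x R).encard ≤ N :=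
      (Set.encard_le_encard Metric.ball_subset_closedBall).trans (hN x)
    have h2 : (Metric.ball x R).Finite := Set.finite_of_encard_le_coe h1
    refine ⟨h2, ?_⟩
    rw [← h2.cast_ncard_eq] at h1
    exact_mod_cast h1
  · refine ⟨1 / 2, by norm_num, by norm_num, fun _ => 0, monotone_const, ?_⟩
    intro ν _ hν r T _
    have hsing : ∀ x : Pool.Agent.R302.Roe.PX, IsOpen ({x} : Set Pool.Agent.R302.Roe.PX) := by
      intro x
      have : Metric.ball x 1 = {x} := by
        ext y
        rw [Metric.mem_ball, Set.mem_singleton_iff, Pool.Agent.R302.Roe.dist_def]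
        constructor
        · intro h
          apply Pool.Agent.R302.Roe.eq_of_dN
          have h2 : Pool.Agent.R302.Roe.dN y x < 1 := by exact_mod_cast h
          omega
        · rintro rfl
          rw [Pool.Agent.R302.Roe.dN_self]
          norm_num
      rw [← this]
      exact Metric.isOpen_ball
    have _ : Countable Pool.Agent.R302.Roe.PX :=
      Pool.Agent.R302.Roe.sgm.countable_iff.mp inferInstance
    have hfin : ∀ x : Pool.Agent.R302.Roe.PX, ν {x} ≠ ∞ := by
      intro x
      obtain ⟨U, hU, hU2⟩ := ν.finiteAt_nhds x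
      exact ne_top_of_le_ne_top hU2.ne
        (measure_mono (Set.singleton_subset_iff.mpr (mem_of_mem_nhds hU)))
    -- an atom
    obtain ⟨x₀, hx₀⟩ : ∃ x, ν {x} ≠ 0 := by
      by_contra hcon
      push Not at hcon
      apply hν
      rw [← Measure.measure_univ_eq_zero]
      have : (Set.univ : Set Pool.Agent.R302.Roe.PX) = ⋃ x, {x} := by
        ext x
        simp
      rw [this]
      exact measure_iUnion_null hcon
    have hne : ∀ (x : Pool.Agent.R302.Roe.PX) (c : lp (fun _ : ℕ => ℝ) 1), ν {x} ≠ 0 → c ≠ 0 →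
        indicatorConstLp 1 (measurableSet_singleton x) (hfin x) c ≠ 0 := by
      intro x c hx hc h0
      rw [← norm_eq_zero, norm_indicatorConstLp one_ne_zero ENNReal.one_ne_top] at h0
      have h1 : ‖c‖ ≠ 0 := norm_ne_zero_iff.mpr hc
      have h2 : ν.real {x} ≠ 0 := by
        rw [measureReal_def]
        exact ENNReal.toReal_ne_zero.mpr ⟨hx, hfin x⟩
      simp at h0
      rcases h0 with h0 | h0
      · exact hc h0
      · exact h2 h0
    by_contra hcon
    have hlt : ∀ (x : Pool.Agent.R302.Roe.PX) (c : lp (fun _ : ℕ => ℝ) 1), ν {x} ≠ 0 → c ≠ 0 →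
        ‖T (indicatorConstLp 1 (measurableSet_singleton x) (hfin x) c)‖ <
          1 / 2 * ‖T‖ * ‖indicatorConstLp 1 (measurableSet_singleton x) (hfin x) c‖ := by
      intro x c hx hc
      by_contra hle
      apply hcon
      refine ⟨_, hne x c hx hc, ⟨{x}, ?_, ?_⟩, not_lt.mp hle⟩
      · intro a ha b hb
        rw [Set.mem_singleton_iff.mp ha, Set.mem_singleton_iff.mp hb, dist_self]
        norm_num
      · filter_upwards [indicatorConstLp_coeFn (p := 1) (hs := measurableSet_singleton x)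
          (hμs := hfin x) (c := c)] with z hz hz2
        rw [hz, Set.indicator_of_notMem hz2]
    have hK : ‖T‖ ≤ 1 / 2 * ‖T‖ := by
      refine Pool.Agent.K6.H84.ONL.op_bound ν hfin T (1 / 2 * ‖T‖) (by positivity) ?_
      intro x c
      by_cases hx : ν {x} = 0
      · have h0 : indicatorConstLp 1 (measurableSet_singleton x) (hfin x) c = 0 := by
          rw [← norm_eq_zero, norm_indicatorConstLp one_ne_zero ENNReal.one_ne_top,
            measureReal_def, hx]
          simp
        rw [h0]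
        simp
      · by_cases hc : c = 0
        · have h0 : indicatorConstLp 1 (measurableSet_singleton x) (hfin x) c = 0 := by
            rw [← norm_eq_zero, norm_indicatorConstLp one_ne_zero ENNReal.one_ne_top, hc]
            simp
          rw [h0]
          simp
        · exact (hlt x c hx hc).le
    have hT0 : ‖T‖ = 0 := by
      have := norm_nonneg T
      linarith
    have h1 := hlt x₀ (lp.single 1 0 (1 : ℝ)) hx₀ (by
      intro h0
      have h2 := congrArg (fun v : lp (fun _ : ℕ => ℝ) 1 => v 0) h0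
      simp at h2)
    rw [hT0] at h1
    have h2 := norm_nonneg (T (indicatorConstLp 1 (measurableSet_singleton x₀) (hfin x₀)
      (lp.single (E := fun _ : ℕ => ℝ) 1 0 (1 : ℝ))))
    linarith


end Pool.Agent.S06444
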