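import Pool.Statements.S09354

/-!
Log-concavity of the coefficients of the D'Arcais polynomials fails at the index `k = 2`.

The coefficients of `x`, `x ^ 2`, `x ^ 3` in `P_n` are `a_1 = σ(n) / n`, `a_2 = O(n)` and
`a_3 ≥ (n - 1)(n - 2) / 12`. Since `σ(n) / n` is unbounded, `a_1 a_3 > a_2 ^ 2` for some `n`.
-/

set_option autoImplicit false
open Pool Pool.MP_6d0115_co

namespace Pool.Agent.S09354

open Finset

/-- the sum of the reciprocals of the divisors of `n` -/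
noncomputable def s (n : ℕ) : ℝ := ∑ d ∈ n.divisors, 1 / (d : ℝ)

lemma s_nonneg (n : ℕ) : 0 ≤ s n := sum_nonneg fun d _ => by positivity

lemma sigma_eq (n : ℕ) : ((ArithmeticFunction.sigma 1 n : ℕ) : ℝ) = n * s n := by
  rw [ArithmeticFunction.sigma_one_apply, s, mul_sum]
  rcases Nat.eq_zero_or_pos n with rfl | hn
  · simp
  rw [← Nat.sum_div_divisors n (fun d => d)]
  push_cast
  refine sum_congr rfl fun d hd => ?_
  have hd' := Nat.dvd_of_mem_divisors hd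
  have h0 : (d : ℝ) ≠ 0 := by
    have := Nat.pos_of_mem_divisors hd
    positivity
  rw [Nat.cast_div hd' h0]
  ring

lemma one_le_s (n : ℕ) (hn : 1 ≤ n) : 1 ≤ s n := by
  have h1 : (1 : ℕ) ∈ n.divisors := by simp; omega
  have := single_le_sum (f := fun d : ℕ => 1 / (d : ℝ)) (fun d _ => by positivity) h1
  simpa [s] using this

/-- harmonic numbers are bounded by `s (N!)` -/
lemma harmonic_le (N : ℕ) : ∑ d ∈ Ioc 0 N, 1 / (d : ℝ) ≤ s N.factorial := by
  refine sum_le_sum_of_subset_of_nonneg ?_ fun d _ _ => by positivity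
  intro d hd
  rw [mem_Ioc] at hd
  rw [Nat.mem_divisors]
  exact ⟨Nat.dvd_factorial hd.1 hd.2, Nat.factorial_ne_zero N⟩

noncomputable def K : ℝ := ∑' d : ℕ, (d : ℝ) ^ (-(3 / 2 : ℝ))

lemma summ : Summable fun d : ℕ => (d : ℝ) ^ (-(3 / 2 : ℝ)) :=
  Real.summable_nat_rpow.2 (by norm_num)

lemma le_K (t : Finset ℕ) : ∑ d ∈ t, (d : ℝ) ^ (-(3 / 2 : ℝ)) ≤ K :=
  summ.sum_le_tsum t fun d _ => by positivity

lemma K_nonneg : 0 ≤ K := by simpa using le_K ∅

lemma s_sq_le (n : ℕ) : s n ^ 2 ≤ K * ∑ d ∈ n.divisors, (d : ℝ) ^ (-(1 / 2 : ℝ)) := by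
  have h := sum_sq_le_sum_mul_sum_of_sq_le_mul (R := ℝ) n.divisors
    (r := fun d => 1 / (d : ℝ)) (f := fun d => (d : ℝ) ^ (-(3 / 2 : ℝ)))
    (g := fun d => (d : ℝ) ^ (-(1 / 2 : ℝ))) (fun d _ => by positivity) (fun d _ => by positivity)
    (fun d hd => by
      have hd0 : (0 : ℝ) < d := by exact_mod_cast Nat.pos_of_mem_divisors hd
      refine le_of_eq ?_
      rw [← Real.rpow_add hd0, one_div, inv_pow, ← Real.rpow_natCast, ← Real.rpow_neg hd0.le]
      norm_num)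
  refine h.trans ?_
  exact mul_le_mul_of_nonneg_right (le_K _) (sum_nonneg fun d _ => by positivity)

lemma sum_s_sq_le (n : ℕ) : ∑ j ∈ Ioc 0 n, s j ^ 2 ≤ K ^ 2 * n := by
  have h1 : ∑ j ∈ Ioc 0 n, s j ^ 2 ≤
      ∑ j ∈ Ioc 0 n, K * ∑ d ∈ j.divisors, (d : ℝ) ^ (-(1 / 2 : ℝ)) :=
    sum_le_sum fun j _ => s_sq_le j
  refine h1.trans ?_
  rw [← mul_sum]
  have h2 : ∑ j ∈ Ioc 0 n, ∑ d ∈ j.divisors, (d : ℝ) ^ (-(1 / 2 : ℝ)) =
      ∑ d ∈ Ioc 0 n, ((n / d : ℕ) : ℝ) * (d : ℝ) ^ (-(1 / 2 : ℝ)) := by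
    have h3 : ∀ j ∈ Ioc 0 n, ∑ d ∈ j.divisors, (d : ℝ) ^ (-(1 / 2 : ℝ)) =
        ∑ d ∈ Ioc 0 n, if d ∣ j then (d : ℝ) ^ (-(1 / 2 : ℝ)) else 0 := by
      intro j hj
      rw [mem_Ioc] at hj
      rw [← sum_filter]
      refine sum_congr ?_ fun _ _ => rfl
      ext d
      rw [Nat.mem_divisors, mem_filter, mem_Ioc]
      constructor
      · rintro ⟨h, h0⟩
        exact ⟨⟨Nat.pos_of_dvd_of_pos h (by omega), (Nat.le_of_dvd (by omega) h).trans hj.2⟩, h⟩
      · rintro ⟨_, h⟩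
        exact ⟨h, by omega⟩
    rw [sum_congr rfl h3, sum_comm]
    refine sum_congr rfl fun d _ => ?_
    rw [← sum_filter, sum_const, Nat.Ioc_filter_dvd_card_eq_div, nsmul_eq_mul]
  rw [h2, pow_two, mul_assoc]
  refine mul_le_mul_of_nonneg_left ?_ K_nonneg
  have h4 : ∑ d ∈ Ioc 0 n, ((n / d : ℕ) : ℝ) * (d : ℝ) ^ (-(1 / 2 : ℝ)) ≤
      ∑ d ∈ Ioc 0 n, (n : ℝ) * (d : ℝ) ^ (-(3 / 2 : ℝ)) := by
    refine sum_le_sum fun d hd => ?_
    rw [mem_Ioc] at hd
    have hd0 : (0 : ℝ) < d := by exact_mod_cast hd.1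
    have h5 : ((n / d : ℕ) : ℝ) ≤ n / d := Nat.cast_div_le
    calc ((n / d : ℕ) : ℝ) * (d : ℝ) ^ (-(1 / 2 : ℝ)) ≤ (n / d : ℝ) * (d : ℝ) ^ (-(1 / 2 : ℝ)) :=
          mul_le_mul_of_nonneg_right h5 (by positivity)
      _ = n * ((d : ℝ) ^ (-(1 : ℝ)) * (d : ℝ) ^ (-(1 / 2 : ℝ))) := by
          rw [Real.rpow_neg_one]; ring
      _ = n * (d : ℝ) ^ (-(3 / 2 : ℝ)) := by
          rw [← Real.rpow_add hd0]; norm_num
  refine h4.trans ?_
  rw [← mul_sum, mul_comm]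
  exact mul_le_mul_of_nonneg_right (le_K _) (by positivity)

/-- The D'Arcais polynomials. -/
noncomputable def P : ℕ → Polynomial ℚ
  | 0 => 1
  | n + 1 => Polynomial.C (1 / ((n : ℚ) + 1)) * Polynomial.X * ∑ k : Fin (n + 1),
      ((ArithmeticFunction.sigma 1 ((k : ℕ) + 1) : ℕ) : Polynomial ℚ) * P (n - k)

lemma P_rec (n : ℕ) (hn : 1 ≤ n) : (n : Polynomial ℚ) * P n =
    Polynomial.X * ∑ k ∈ Finset.Icc 1 n,
      ((ArithmeticFunction.sigma 1 k : ℕ) : Polynomial ℚ) * P (n - k) := by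
  obtain ⟨m, rfl⟩ : ∃ m, n = m + 1 := ⟨n - 1, by omega⟩
  rw [P]
  have h1 : ((m + 1 : ℕ) : Polynomial ℚ) * Polynomial.C (1 / ((m : ℚ) + 1)) = 1 := by
    rw [← Polynomial.C_eq_natCast, ← Polynomial.C_mul]
    have : ((m + 1 : ℕ) : ℚ) * (1 / ((m : ℚ) + 1)) = 1 := by
      push_cast; field_simp
    rw [this, Polynomial.C_1]
  rw [← mul_assoc, ← mul_assoc, h1, one_mul]
  congr 1
  rw [Fin.sum_univ_eq_sum_range
    (fun k => ((ArithmeticFunction.sigma 1 (k + 1) : ℕ) : Polynomial ℚ) * P (m - k)) (m + 1)]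
  rw [← Finset.Ico_add_one_right_eq_Icc, Finset.sum_Ico_eq_sum_range]
  refine sum_congr (by simp) fun k _ => ?_
  rw [show 1 + k = k + 1 by omega, show m + 1 - (k + 1) = m - k by omega]

/-- the real value of the coefficient of `x ^ j` in `P_n` -/
noncomputable def c (j n : ℕ) : ℝ := (((P n).coeff j : ℚ) : ℝ)

lemma c_rec (j n : ℕ) (hn : 1 ≤ n) :
    (n : ℝ) * c (j + 1) n = ∑ k ∈ Ioc 0 n, (k * s k) * c j (n - k) := by
  have h := congrArg (fun p : Polynomial ℚ => p.coeff (j + 1)) (P_rec n hn)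
  rw [Polynomial.coeff_X_mul, Polynomial.finsetSum_coeff, ← Polynomial.C_eq_natCast,
    Polynomial.coeff_C_mul] at h
  have h2 := congrArg (fun q : ℚ => (q : ℝ)) h
  push_cast at h2
  rw [c, h2]
  refine sum_congr rfl fun k _ => ?_
  rw [← Polynomial.C_eq_natCast, Polynomial.coeff_C_mul]
  push_cast
  rw [c, sigma_eq]

lemma c_zero_zero : c 0 0 = 1 := by simp [c, P]

lemma c_succ_zero (j : ℕ) : c (j + 1) 0 = 0 := by
  simp [c, P, Polynomial.coeff_one]

lemma c_zero (n : ℕ) (hn : 1 ≤ n) : c 0 n = 0 := by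
  have h := congrArg (fun p : Polynomial ℚ => p.coeff 0) (P_rec n hn)
  rw [Polynomial.coeff_X_mul_zero, ← Polynomial.C_eq_natCast, Polynomial.coeff_C_mul] at h
  have hn0 : (n : ℚ) ≠ 0 := by
    have : 0 < n := hn
    positivity
  have := (mul_eq_zero.1 h).resolve_left hn0
  simp [c, this]

lemma c_one (n : ℕ) (hn : 1 ≤ n) : c 1 n = s n := by
  have h := c_rec 0 n hn
  rw [sum_eq_single n] at h
  · rw [Nat.sub_self, c_zero_zero, mul_one] at h
    have hn0 : (n : ℝ) ≠ 0 := by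
      have : 0 < n := hn
      positivity
    exact mul_left_cancel₀ hn0 h
  · intro k hk hkn
    rw [mem_Ioc] at hk
    rw [c_zero (n - k) (by omega), mul_zero]
  · intro h
    exact absurd (by rw [mem_Ioc]; omega) h

lemma c_one' (n : ℕ) : c 1 n = s n := by
  rcases Nat.eq_zero_or_pos n with rfl | hn
  · rw [c_succ_zero]; simp [s]
  · exact c_one n hn

lemma c_two_le (n : ℕ) (hn : 1 ≤ n) : c 2 n ≤ K ^ 2 * n := by
  have h := c_rec 1 n hn
  have hn0 : (0 : ℝ) < n := by exact_mod_cast hn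
  have h1 : ∑ k ∈ Ioc 0 n, (k * s k) * c 1 (n - k) ≤
      n * ((∑ k ∈ Ioc 0 n, s k ^ 2 + ∑ k ∈ Ioc 0 n, s (n - k) ^ 2) / 2) := by
    rw [← sum_add_distrib, sum_div, mul_sum]
    refine sum_le_sum fun k hk => ?_
    rw [mem_Ioc] at hk
    rw [c_one', mul_assoc]
    have hk' : (k : ℝ) ≤ n := by exact_mod_cast hk.2
    have h2 : 0 ≤ s k * s (n - k) := mul_nonneg (s_nonneg _) (s_nonneg _)
    have h3 : s k * s (n - k) ≤ (s k ^ 2 + s (n - k) ^ 2) / 2 := by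
      nlinarith [sq_nonneg (s k - s (n - k))]
    exact mul_le_mul hk' h3 h2 hn0.le
  have h2 : ∑ k ∈ Ioc 0 n, s (n - k) ^ 2 ≤ ∑ k ∈ Ioc 0 n, s k ^ 2 := by
    have h3 : ∑ k ∈ Ioc 0 n, s (n - k) ^ 2 = ∑ j ∈ range n, s j ^ 2 := by
      refine sum_bij' (fun k _ => n - k) (fun j _ => n - j) ?_ ?_ ?_ ?_ ?_
      · intro k hk; rw [mem_Ioc] at hk; rw [mem_range]; omega
      · intro j hj; rw [mem_range] at hj; rw [mem_Ioc]; omega
      · intro k hk; rw [mem_Ioc] at hk; omega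
      · intro j hj; rw [mem_range] at hj; omega
      · intro k _; rfl
    rw [h3]
    have h4 : ∑ j ∈ range n, s j ^ 2 ≤ ∑ j ∈ insert 0 (Ioc 0 n), s j ^ 2 := by
      refine sum_le_sum_of_subset_of_nonneg ?_ fun j _ _ => sq_nonneg _
      intro j hj
      rw [mem_range] at hj
      rw [mem_insert, mem_Ioc]
      omega
    refine h4.trans ?_
    rw [sum_insert (by simp)]
    simp [s]
  have h3 := sum_s_sq_le n
  have h4 : (n : ℝ) * c 2 n ≤ n * (K ^ 2 * n) := by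
    rw [h]
    refine h1.trans (mul_le_mul_of_nonneg_left ?_ hn0.le)
    linarith
  exact le_of_mul_le_mul_left h4 hn0

lemma sum_id (n : ℕ) : ∑ k ∈ Ioc 0 n, (k : ℝ) = n * (n + 1) / 2 := by
  induction n with
  | zero => simp
  | succ n ih =>
    rw [← Finset.insert_Ioc_right_eq_Ioc_add_one (Nat.zero_le n), sum_insert (by simp), ih]
    push_cast; ring

lemma c_two_ge (n : ℕ) (hn : 1 ≤ n) : ((n : ℝ) - 1) / 2 ≤ c 2 n := by
  have h := c_rec 1 n hn
  have hn0 : (0 : ℝ) < n := by exact_mod_cast hn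
  have h1 : ∑ k ∈ Ioc 0 (n - 1), (k : ℝ) ≤ ∑ k ∈ Ioc 0 n, (k * s k) * c 1 (n - k) := by
    have h2 : ∑ k ∈ Ioc 0 (n - 1), (k : ℝ) ≤ ∑ k ∈ Ioc 0 (n - 1), (k * s k) * c 1 (n - k) := by
      refine sum_le_sum fun k hk => ?_
      rw [mem_Ioc] at hk
      rw [c_one', mul_assoc]
      have h3 := one_le_s k hk.1
      have h4 := one_le_s (n - k) (by omega)
      have h5 : 1 ≤ s k * s (n - k) := by nlinarith
      exact le_mul_of_one_le_right (by positivity) h5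
    refine h2.trans (sum_le_sum_of_subset_of_nonneg ?_ fun k _ _ => ?_)
    · intro k hk
      rw [mem_Ioc] at hk ⊢
      omega
    · rw [c_one']
      have := s_nonneg k
      have := s_nonneg (n - k)
      positivity
  rw [sum_id] at h1
  have h2 : (n : ℝ) * (((n : ℝ) - 1) / 2) ≤ n * c 2 n := by
    rw [h]
    refine le_trans (le_of_eq ?_) h1
    rw [Nat.cast_sub hn]
    push_cast
    ring
  exact le_of_mul_le_mul_left h2 hn0

lemma c_two_nonneg (n : ℕ) : 0 ≤ c 2 n := by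
  rcases Nat.eq_zero_or_pos n with rfl | hn
  · rw [c_succ_zero]
  · have h1 := c_two_ge n hn
    have h2 : (1 : ℝ) ≤ n := by exact_mod_cast hn
    linarith

lemma sum_prod (n : ℕ) (a : ℝ) :
    ∑ k ∈ Ioc 0 n, (k : ℝ) * ((a - k - 1) / 2) = n * (n + 1) * (3 * a - 2 * n - 4) / 12 := by
  induction n with
  | zero => simp
  | succ n ih =>
    rw [← Finset.insert_Ioc_right_eq_Ioc_add_one (Nat.zero_le n), sum_insert (by simp), ih]
    push_cast; ring

lemma c_three_ge (n : ℕ) (hn : 1 ≤ n) : ((n : ℝ) - 1) * (n - 2) / 12 ≤ c 3 n := by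
  have h := c_rec 2 n hn
  have hn0 : (0 : ℝ) < n := by exact_mod_cast hn
  have h1 : ∑ k ∈ Ioc 0 (n - 1), (k : ℝ) * (((n : ℝ) - k - 1) / 2) ≤
      ∑ k ∈ Ioc 0 n, (k * s k) * c 2 (n - k) := by
    have h2 : ∑ k ∈ Ioc 0 (n - 1), (k : ℝ) * (((n : ℝ) - k - 1) / 2) ≤
        ∑ k ∈ Ioc 0 (n - 1), (k * s k) * c 2 (n - k) := by
      refine sum_le_sum fun k hk => ?_
      rw [mem_Ioc] at hk
      have h3 := one_le_s k hk.1
      have h4 := c_two_ge (n - k) (by omega)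
      rw [Nat.cast_sub (by omega)] at h4
      have h5 := c_two_nonneg (n - k)
      rw [mul_assoc]
      refine mul_le_mul_of_nonneg_left ?_ (by positivity)
      nlinarith
    refine h2.trans (sum_le_sum_of_subset_of_nonneg ?_ fun k _ _ => ?_)
    · intro k hk
      rw [mem_Ioc] at hk ⊢
      omega
    · have := s_nonneg k
      have := c_two_nonneg (n - k)
      positivity
  rw [sum_prod] at h1
  have h2 : (n : ℝ) * (((n : ℝ) - 1) * (n - 2) / 12) ≤ n * c 3 n := by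
    rw [h]
    refine le_trans (le_of_eq ?_) h1
    rw [Nat.cast_sub hn]
    push_cast
    ring
  exact le_of_mul_le_mul_left h2 hn0

/-- The negation of the preceding statement: If P_0=1 and n·P_n = x·Σ_{k=1}^n σ(k)P_{n-k} (the D'Arcais polynomials), then for all n and k≥1 the coefficients of P_n satisfy a_{k-1}a_{k+1} ≤ a_k². -/
theorem result :
    ¬ (∀ P : ℕ → Polynomial ℚ, P 0 = 1 →
      (∀ n : ℕ, 1 ≤ n →
        (n : Polynomial ℚ) * P n =
          Polynomial.X * ∑ k ∈ Finset.Icc 1 n,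
            ((ArithmeticFunction.sigma 1 k : ℕ) : Polynomial ℚ) * P (n - k)) →
      ∀ n k : ℕ, 1 ≤ k →
        (P n).coeff (k - 1) * (P n).coeff (k + 1) ≤ (P n).coeff k ^ 2) := by
  intro H
  have H2 := fun n => H P (by rw [P]) P_rec n 2 (by norm_num)
  -- harmonic numbers are unbounded
  have hdiv : Filter.Tendsto (fun N : ℕ => ∑ d ∈ Ioc 0 N, 1 / (d : ℝ)) Filter.atTop
      Filter.atTop := by
    have h := Real.tendsto_sum_range_one_div_nat_succ_atTop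
    refine h.congr fun N => ?_
    refine sum_bij' (fun k _ => k + 1) (fun j _ => j - 1) ?_ ?_ ?_ ?_ ?_
    · intro k hk; rw [mem_range] at hk; rw [mem_Ioc]; omega
    · intro k hk; rw [mem_Ioc] at hk; rw [mem_range]; omega
    · intro k hk; simp
    · intro j hj; rw [mem_Ioc] at hj; omega
    · intro k _; push_cast; rfl
  obtain ⟨N, hN, hN3⟩ := ((hdiv.eventually_gt_atTop (22 * K ^ 2 ^ 2)).and
    (Filter.eventually_ge_atTop 3)).exists
  set n := N.factorial with hn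
  have hn6 : 6 ≤ n := by
    have := Nat.factorial_le hN3
    simpa [Nat.factorial] using this
  have hs : 22 * K ^ 2 ^ 2 < s n := hN.trans_le (harmonic_le N)
  have h1 := c_one n (by omega)
  have h2 := c_two_le n (by omega)
  have h3 := c_three_ge n (by omega)
  have h20 := c_two_nonneg n
  have h4 : c 1 n * c 3 n ≤ c 2 n ^ 2 := by
    have := H2 n
    have h5 : (((P n).coeff (2 - 1) * (P n).coeff (2 + 1) : ℚ) : ℝ) ≤
        (((P n).coeff 2 ^ 2 : ℚ) : ℝ) := by exact_mod_cast this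
    push_cast at h5
    exact h5
  have hn6' : (6 : ℝ) ≤ n := by exact_mod_cast hn6
  have h5 : (5 / 9 : ℝ) * n ^ 2 ≤ (n - 1) * (n - 2) := by nlinarith
  have h6 : c 2 n ^ 2 ≤ (K ^ 2 * n) ^ 2 := pow_le_pow_left₀ h20 h2 2
  have h7 : s n * ((5 / 108 : ℝ) * n ^ 2) ≤ c 1 n * c 3 n := by
    rw [h1]
    refine mul_le_mul_of_nonneg_left ?_ (s_nonneg n)
    linarith
  have h8 : s n * ((5 / 108 : ℝ) * n ^ 2) ≤ (K ^ 2 * n) ^ 2 := h7.trans (h4.trans h6)
  have hn2 : (0 : ℝ) < n ^ 2 := by positivity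
  have h9 : s n * (5 / 108 : ℝ) ≤ K ^ 2 ^ 2 := by
    have : s n * (5 / 108 : ℝ) * n ^ 2 ≤ K ^ 2 ^ 2 * n ^ 2 := by
      calc s n * (5 / 108 : ℝ) * n ^ 2 = s n * ((5 / 108 : ℝ) * n ^ 2) := by ring
        _ ≤ (K ^ 2 * n) ^ 2 := h8
        _ = K ^ 2 ^ 2 * n ^ 2 := by ring
    exact le_of_mul_le_mul_right this hn2
  have hK : 0 ≤ K ^ 2 ^ 2 := by have := K_nonneg; positivity
  clear_value n
  generalize K ^ 2 ^ 2 = x at hs h9 hK
  linarith

end Pool.Agent.S09354
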