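-- A counterexample: blow-ups of categorical powers of complete graphs.
import Pool.Statements.S11986
import Pool.Agent.K6.H78.Blow
import Pool.Agent.K6.H78.Count

set_option autoImplicit false
open Filter Topology
open Pool Pool.MP_e10300_co

namespace Pool.Agent.S11986

open Pool.Agent.K6.H78.Blow Pool.Agent.K6.H78.Count

/-- The vertex set of the `(k+2)^2`-th power of the complete graph on `k+3` vertices. -/
abbrev Om (k : ℕ) : Type := Fin ((k + 2) ^ 2) → Fin (k + 3)

/-- The edge density. -/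
noncomputable def q (k : ℕ) : ℝ := (1 - 1 / ((k + 3 : ℕ) : ℝ)) ^ ((k + 2) ^ 2)

/-- The blow-up on `n` vertices. -/
noncomputable def Gr (k n : ℕ) : SimpleGraph (Fin n) :=
  SimpleGraph.comap (lab (Om k) n) (H ((k + 2) ^ 2) (k + 3))

theorem base_pos (k : ℕ) : 0 < (1 - 1 / ((k + 3 : ℕ) : ℝ)) := by
  have : (0:ℝ) < ((k + 3 : ℕ) : ℝ) := by positivity
  rw [sub_pos, div_lt_one this]
  push_cast
  have : (0:ℝ) ≤ k := by positivity
  linarith

theorem q_pos (k : ℕ) : 0 < q k := pow_pos (base_pos k) _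

theorem q_le (k : ℕ) : q k ≤ 1 := by
  refine pow_le_one₀ (base_pos k).le ?_
  have : (0:ℝ) ≤ 1 / ((k + 3 : ℕ) : ℝ) := by positivity
  linarith

/-- The limit of the normalised counts for fixed `k`. -/
noncomputable def R {V : Type} [Fintype V] (F : SimpleGraph V) (e k : ℕ) : ℝ :=
  ((Set.ncard (Col F (k + 3)) : ℝ) / ((k + 3 : ℕ) : ℝ) ^ Fintype.card V /
    (1 - 1 / ((k + 3 : ℕ) : ℝ)) ^ e) ^ ((k + 2) ^ 2)

/-- The normalised count. -/
noncomputable def r {V : Type} [Fintype V] (F : SimpleGraph V) (e k n : ℕ) : ℝ :=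
  (Set.ncard {f : V → Fin n | Function.Injective f ∧
    ∀ i j, F.Adj i j → (Gr k n).Adj (f i) (f j)} : ℝ) /
    ((n.descFactorial (Fintype.card V) : ℝ) * q k ^ e)

theorem r_tendsto {V : Type} [Fintype V] (F : SimpleGraph V) (e k : ℕ) :
    Tendsto (fun n => r F e k n) atTop (𝓝 (R F e k)) := by
  have h := inj_tendsto (V := V) (Ω := Om k)
    (fun φ => ∀ i j, F.Adj i j → (H ((k + 2) ^ 2) (k + 3)).Adj (φ i) (φ j))
  rw [hom_count F _ _ (by positivity)] at h
  have h2 := h.div_const (q k ^ e)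
  have e1 : (((Set.ncard (Col F (k + 3)) ^ ((k + 2) ^ 2) : ℕ) : ℝ) /
      (Fintype.card (Om k) : ℝ) ^ Fintype.card V) / q k ^ e = R F e k := by
    unfold R q
    rw [Fintype.card_fun, Fintype.card_fin, Fintype.card_fin, div_pow, div_pow]
    push_cast
    rw [← pow_mul, ← pow_mul, ← pow_mul, ← pow_mul, mul_comm ((k + 2) ^ 2) (Fintype.card V),
      mul_comm ((k + 2) ^ 2) e]
  rw [e1] at h2
  refine h2.congr fun n => ?_
  unfold r
  rw [div_div]
  rfl

theorem R_K2 (k : ℕ) : R (⊤ : SimpleGraph (Fin 2)) 1 k = 1 := by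
  have h := base_pos k
  unfold R
  rw [col_top, Fintype.card_fin]
  have : (((k + 3).descFactorial 2 : ℕ) : ℝ) / ((k + 3 : ℕ) : ℝ) ^ 2 / (1 - 1 / ((k + 3 : ℕ) : ℝ)) ^ 1 = 1 := by
    rw [pow_one, div_eq_one_iff_eq h.ne']
    rw [Nat.descFactorial_succ, Nat.descFactorial_one]
    rw [show k + 3 - 1 = k + 2 from rfl]
    push_cast
    field_simp
    ring
  rw [this, one_pow]

theorem R_C3 (k : ℕ) : R (SimpleGraph.cycleGraph 3) 3 k < 1 / 2 := by
  have h := base_pos k
  unfold R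
  rw [col_C3, Fintype.card_fin]
  have h1 : (((k + 3).descFactorial 3 : ℕ) : ℝ) / ((k + 3 : ℕ) : ℝ) ^ 3 /
      (1 - 1 / ((k + 3 : ℕ) : ℝ)) ^ 3 = 1 - 1 / ((k:ℝ) + 2) ^ 2 := by
    have e : (1 - 1 / ((k + 3 : ℕ) : ℝ)) = ((k:ℝ) + 2) / (k + 3) := by
      push_cast; field_simp; ring
    rw [e, Nat.descFactorial_succ, Nat.descFactorial_succ, Nat.descFactorial_one]
    rw [show k + 3 - 1 = k + 2 from rfl, show k + 3 - 2 = k + 1 from rfl]
    push_cast
    field_simp
    ring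
  rw [h1]
  have h2 : 1 - 1 / ((k:ℝ) + 2) ^ 2 ≤ Real.exp (-(1 / ((k:ℝ) + 2) ^ 2)) := by
    have := Real.add_one_le_exp (-(1 / ((k:ℝ) + 2) ^ 2))
    linarith
  have h3 : 0 ≤ 1 - 1 / ((k:ℝ) + 2) ^ 2 := by
    rw [sub_nonneg, div_le_one (by positivity)]
    have : (0:ℝ) ≤ k := by positivity
    nlinarith
  calc (1 - 1 / ((k:ℝ) + 2) ^ 2) ^ ((k + 2) ^ 2)
      ≤ (Real.exp (-(1 / ((k:ℝ) + 2) ^ 2))) ^ ((k + 2) ^ 2) := by gcongr
    _ = Real.exp (-1) := by
        rw [← Real.exp_nat_mul]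
        congr 1
        push_cast
        field_simp
    _ < 1 / 2 := by
        have := Real.exp_neg_one_lt_d9
        linarith

theorem R_C4 (k : ℕ) : 1 ≤ R (SimpleGraph.cycleGraph 4) 4 k ∧
    R (SimpleGraph.cycleGraph 4) 4 k ≤ Real.exp (1 / ((k:ℝ) + 2)) := by
  unfold R
  rw [col_C4_val _ (by omega), Fintype.card_fin]
  have h1 : ((((k + 3 : ℕ) : ℝ) - 1) ^ 4 + (((k + 3 : ℕ) : ℝ) - 1)) / ((k + 3 : ℕ) : ℝ) ^ 4 /
      (1 - 1 / ((k + 3 : ℕ) : ℝ)) ^ 4 = 1 + 1 / ((k:ℝ) + 2) ^ 3 := by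
    have e : (1 - 1 / ((k + 3 : ℕ) : ℝ)) = ((k:ℝ) + 2) / (k + 3) := by
      push_cast; field_simp; ring
    rw [e]
    push_cast
    have e2 : (k:ℝ) + 3 - 1 = k + 2 := by ring
    rw [e2]
    field_simp
  rw [h1]
  constructor
  · refine one_le_pow₀ ?_
    have : (0:ℝ) ≤ 1 / ((k:ℝ) + 2) ^ 3 := by positivity
    linarith
  · calc (1 + 1 / ((k:ℝ) + 2) ^ 3) ^ ((k + 2) ^ 2)
        ≤ (Real.exp (1 / ((k:ℝ) + 2) ^ 3)) ^ ((k + 2) ^ 2) := by
          have := Real.add_one_le_exp (1 / ((k:ℝ) + 2) ^ 3)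
          gcongr
          linarith
      _ = Real.exp (1 / ((k:ℝ) + 2)) := by
          rw [← Real.exp_nat_mul]
          congr 1
          push_cast
          field_simp

theorem R_bip (s t k : ℕ) (hk : 2 * s + 2 ≤ k + 3) :
    R (completeBipartiteGraph (Fin s) (Fin t)) (s * t) k ≤ Real.exp (2 ^ (t + 1) * s ^ 2) := by
  unfold R
  have h := bip_bound s t (k + 3) hk
  have hb := base_pos k
  rw [Fintype.card_sum, Fintype.card_fin, Fintype.card_fin]
  have h1 : (Set.ncard (Col (completeBipartiteGraph (Fin s) (Fin t)) (k + 3)) : ℝ) /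
      ((k + 3 : ℕ) : ℝ) ^ (s + t) / (1 - 1 / ((k + 3 : ℕ) : ℝ)) ^ (s * t)
      ≤ Real.exp (2 ^ (t + 1) * s ^ 2 / ((k + 3 : ℕ) : ℝ) ^ 2) := by
    rw [div_le_iff₀ (pow_pos hb _)]
    refine h.trans ?_
    rw [mul_comm]
    refine mul_le_mul_of_nonneg_right ?_ (pow_pos hb _).le
    have := Real.add_one_le_exp (2 ^ (t + 1) * (s:ℝ) ^ 2 / ((k + 3 : ℕ) : ℝ) ^ 2)
    linarith
  calc _ ≤ (Real.exp (2 ^ (t + 1) * s ^ 2 / ((k + 3 : ℕ) : ℝ) ^ 2)) ^ ((k + 2) ^ 2) := by
        gcongr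
    _ = Real.exp (2 ^ (t + 1) * s ^ 2 * (((k:ℝ) + 2) ^ 2 / ((k:ℝ) + 3) ^ 2)) := by
        rw [← Real.exp_nat_mul]
        congr 1
        push_cast
        ring
    _ ≤ Real.exp (2 ^ (t + 1) * s ^ 2) := by
        apply Real.exp_le_exp.2
        have : (((k:ℝ) + 2) ^ 2 / ((k:ℝ) + 3) ^ 2) ≤ 1 := by
          rw [div_le_one (by positivity)]
          gcongr
          norm_num
        calc _ ≤ (2:ℝ) ^ (t + 1) * s ^ 2 * 1 := by gcongr
          _ = _ := mul_one _

theorem p_tendsto (c : ℝ) (hc : 0 < c) (s : ℕ) (hs : 0 < s) (a : ℝ) :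
    Tendsto (fun n : ℕ => c / ((Real.log n) ^ a * (n : ℝ) ^ (-(1 / (s : ℝ))))) atTop atTop := by
  have hs0 : (0:ℝ) < 1 / (s:ℝ) := by positivity
  have h1 : Tendsto (fun x : ℝ => (Real.log x) ^ a * x ^ (-(1 / (s : ℝ)))) atTop (𝓝 0) := by
    have h := (isLittleO_log_rpow_rpow_atTop a hs0).tendsto_div_nhds_zero
    refine h.congr' ?_
    filter_upwards [eventually_gt_atTop 0] with x hx
    rw [Real.rpow_neg hx.le, div_eq_mul_inv]
  have h2 : Tendsto (fun x : ℝ => (Real.log x) ^ a * x ^ (-(1 / (s : ℝ)))) atTop (𝓝[>] 0) := by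
    rw [tendsto_nhdsWithin_iff]
    refine ⟨h1, ?_⟩
    filter_upwards [eventually_gt_atTop 1] with x hx
    have : 0 < Real.log x := Real.log_pos hx
    have h0 : 0 < x := by linarith
    rw [Set.mem_Ioi]
    positivity
  have h3 := (tendsto_inv_nhdsGT_zero.comp h2).const_mul_atTop hc
  have h4 := h3.comp tendsto_natCast_atTop_atTop
  refine h4.congr fun n => ?_
  simp only [Function.comp_apply]
  exact (div_eq_mul_inv _ _).symm

/-- The negation of the preceding statement: There are s≥2, a>0 such that whenever p(n)/((log n)^a n^(-1/s))→∞ and n-vertex graphs have normalized labelled K2 and C4 counts tending to 1 and bounded normalized K_{s,t} counts for each t, the normalized triangle count tends to 1. -/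
theorem result :
    ¬ (∃ s : ℕ, 2 ≤ s ∧ ∃ a : ℝ, 0 < a ∧
      ∀ p : ℕ → ℝ, (∀ n, 0 < p n ∧ p n ≤ 1) →
        Tendsto (fun n : ℕ => p n / ((Real.log n) ^ a * (n : ℝ) ^ (-(1 / (s : ℝ))))) atTop atTop →
        ∀ G : ∀ n : ℕ, SimpleGraph (Fin n),
          Tendsto (fun n : ℕ =>
            (Set.ncard {f : Fin 2 → Fin n | Function.Injective f ∧
                ∀ i j, (⊤ : SimpleGraph (Fin 2)).Adj i j → (G n).Adj (f i) (f j)} : ℝ) /
              ((n.descFactorial 2 : ℝ) * p n ^ 1)) atTop (𝓝 1) →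
          Tendsto (fun n : ℕ =>
            (Set.ncard {f : Fin 4 → Fin n | Function.Injective f ∧
                ∀ i j, (SimpleGraph.cycleGraph 4).Adj i j → (G n).Adj (f i) (f j)} : ℝ) /
              ((n.descFactorial 4 : ℝ) * p n ^ 4)) atTop (𝓝 1) →
          (∀ t : ℕ, 1 ≤ t → ∃ C : ℝ, ∀ n : ℕ,
            (Set.ncard {f : Fin s ⊕ Fin t → Fin n | Function.Injective f ∧
                ∀ i j, (completeBipartiteGraph (Fin s) (Fin t)).Adj i j → (G n).Adj (f i) (f j)} : ℝ) /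
              ((n.descFactorial (s + t) : ℝ) * p n ^ (s * t)) ≤ C) →
          Tendsto (fun n : ℕ =>
            (Set.ncard {f : Fin 3 → Fin n | Function.Injective f ∧
                ∀ i j, (SimpleGraph.cycleGraph 3).Adj i j → (G n).Adj (f i) (f j)} : ℝ) /
              ((n.descFactorial 3 : ℝ) * p n ^ 3)) atTop (𝓝 1)) := by
  rintro ⟨s, hs, a, ha, hall⟩
  obtain ⟨μ, hμ, hQ⟩ := diag (fun k n =>
    |r (⊤ : SimpleGraph (Fin 2)) 1 k n - 1| ≤ 1 / ((k:ℝ) + 1) ∧
    |r (SimpleGraph.cycleGraph 4) 4 k n - R (SimpleGraph.cycleGraph 4) 4 k| ≤ 1 / ((k:ℝ) + 1) ∧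
    r (SimpleGraph.cycleGraph 3) 3 k n ≤ 1 / 2 ∧
    (∀ t ≤ k, r (completeBipartiteGraph (Fin s) (Fin t)) (s * t) k n ≤
      R (completeBipartiteGraph (Fin s) (Fin t)) (s * t) k + 1) ∧
    (k:ℝ) ≤ q k / ((Real.log n) ^ a * (n : ℝ) ^ (-(1 / (s : ℝ))))) (by
    intro k
    have hk : (0:ℝ) < 1 / ((k:ℝ) + 1) := by positivity
    have h1 := r_tendsto (⊤ : SimpleGraph (Fin 2)) 1 k
    rw [R_K2] at h1
    have h2 := r_tendsto (SimpleGraph.cycleGraph 4) 4 k
    have h3 := r_tendsto (SimpleGraph.cycleGraph 3) 3 k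
    have h4 : ∀ t, Tendsto (fun n => r (completeBipartiteGraph (Fin s) (Fin t)) (s * t) k n) atTop
      (𝓝 (R (completeBipartiteGraph (Fin s) (Fin t)) (s * t) k)) := fun t => r_tendsto _ _ k
    have h5 := p_tendsto (q k) (q_pos k) s (by omega) a
    have e1 : ∀ᶠ n in atTop, |r (⊤ : SimpleGraph (Fin 2)) 1 k n - 1| ≤ 1 / ((k:ℝ) + 1) := by
      filter_upwards [(Metric.tendsto_nhds.1 h1) _ hk] with n hn
      rw [Real.dist_eq] at hn
      exact hn.le
    have e2 : ∀ᶠ n in atTop, |r (SimpleGraph.cycleGraph 4) 4 k n -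
        R (SimpleGraph.cycleGraph 4) 4 k| ≤ 1 / ((k:ℝ) + 1) := by
      filter_upwards [(Metric.tendsto_nhds.1 h2) _ hk] with n hn
      rw [Real.dist_eq] at hn
      exact hn.le
    have e3 : ∀ᶠ n in atTop, r (SimpleGraph.cycleGraph 3) 3 k n ≤ 1 / 2 := by
      filter_upwards [h3.eventually_lt_const (R_C3 k)] with n hn
      exact hn.le
    have e4 : ∀ᶠ n in atTop, ∀ t ≤ k, r (completeBipartiteGraph (Fin s) (Fin t)) (s * t) k n ≤
        R (completeBipartiteGraph (Fin s) (Fin t)) (s * t) k + 1 := by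
      have : ∀ᶠ n in atTop, ∀ t ∈ Finset.range (k + 1),
          r (completeBipartiteGraph (Fin s) (Fin t)) (s * t) k n ≤
          R (completeBipartiteGraph (Fin s) (Fin t)) (s * t) k + 1 := by
        rw [Finset.eventually_all]
        intro t _
        filter_upwards [(h4 t).eventually_lt_const (lt_add_one _)] with n hn
        exact hn.le
      filter_upwards [this] with n hn t ht
      exact hn t (Finset.mem_range.2 (by omega))
    have e5 := h5.eventually_ge_atTop (k:ℝ)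
    filter_upwards [e1, e2, e3, e4, e5] with n g1 g2 g3 g4 g5
    exact ⟨g1, g2, g3, g4, g5⟩)
  have hμR : Tendsto (fun n => ((μ n : ℕ) : ℝ)) atTop atTop :=
    tendsto_natCast_atTop_atTop.comp hμ
  have hz : Tendsto (fun n => 1 / (((μ n : ℕ) : ℝ) + 1)) atTop (𝓝 0) := by
    have : Tendsto (fun n => ((μ n : ℕ) : ℝ) + 1) atTop atTop := tendsto_atTop_add_const_right _ _ hμR
    refine this.inv_tendsto_atTop.congr fun n => ?_
    rw [Pi.inv_apply, one_div]
  have hz2 : Tendsto (fun n => 1 / (((μ n : ℕ) : ℝ) + 2)) atTop (𝓝 0) := by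
    have : Tendsto (fun n => ((μ n : ℕ) : ℝ) + 2) atTop atTop := tendsto_atTop_add_const_right _ _ hμR
    refine this.inv_tendsto_atTop.congr fun n => ?_
    rw [Pi.inv_apply, one_div]
  have hC4 : Tendsto (fun n => R (SimpleGraph.cycleGraph 4) 4 (μ n)) atTop (𝓝 1) := by
    have hexp : Tendsto (fun n => Real.exp (1 / (((μ n : ℕ) : ℝ) + 2))) atTop (𝓝 1) := by
      have := (Real.continuous_exp.tendsto 0).comp hz2
      rw [Real.exp_zero] at this
      exact this
    exact tendsto_of_tendsto_of_tendsto_of_le_of_le tendsto_const_nhds hexp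
      (fun n => (R_C4 (μ n)).1) (fun n => (R_C4 (μ n)).2)
  have key := hall (fun n => q (μ n)) (fun n => ⟨q_pos _, q_le _⟩) ?_ (fun n => Gr (μ n) n) ?_ ?_ ?_
  · -- contradiction with the triangle count
    have h1 : ∀ᶠ n in atTop, (1:ℝ) / 2 < r (SimpleGraph.cycleGraph 3) 3 (μ n) n := by
      have := key.eventually_const_lt (show (1:ℝ) / 2 < 1 by norm_num)
      filter_upwards [this] with n hn
      unfold r
      rw [Fintype.card_fin]
      exact hn
    obtain ⟨n, hn1, hn2⟩ := (h1.and hQ).exists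
    exact absurd hn2.2.2.1 (not_le.2 hn1)
  · -- the lower bound on `p`
    refine tendsto_atTop_mono' atTop ?_ hμR
    filter_upwards [hQ] with n hn
    exact hn.2.2.2.2
  · -- edges
    have : Tendsto (fun n => r (⊤ : SimpleGraph (Fin 2)) 1 (μ n) n) atTop (𝓝 1) := by
      rw [tendsto_iff_norm_sub_tendsto_zero]
      refine squeeze_zero' (Eventually.of_forall fun _ => norm_nonneg _) ?_ hz
      filter_upwards [hQ] with n hn
      exact hn.1
    refine this.congr fun n => ?_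
    unfold r
    rw [Fintype.card_fin]
  · -- four-cycles
    have h1 : Tendsto (fun n => r (SimpleGraph.cycleGraph 4) 4 (μ n) n -
        R (SimpleGraph.cycleGraph 4) 4 (μ n)) atTop (𝓝 0) := by
      rw [tendsto_zero_iff_norm_tendsto_zero]
      refine squeeze_zero' (Eventually.of_forall fun _ => norm_nonneg _) ?_ hz
      filter_upwards [hQ] with n hn
      exact hn.2.1
    have h2 := h1.add hC4
    rw [zero_add] at h2
    refine h2.congr fun n => ?_
    rw [sub_add_cancel]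
    unfold r
    rw [Fintype.card_fin]
  · -- complete bipartite graphs
    intro t _
    have h1 : ∀ᶠ n in atTop, r (completeBipartiteGraph (Fin s) (Fin t)) (s * t) (μ n) n ≤
        Real.exp (2 ^ (t + 1) * s ^ 2) + 1 := by
      filter_upwards [hQ, hμ.eventually_ge_atTop t, hμ.eventually_ge_atTop (2 * s)] with n g1 g2 g3
      have := g1.2.2.2.1 t g2
      have h3 := R_bip s t (μ n) (by omega)
      linarith
    obtain ⟨n0, hn0⟩ := eventually_atTop.1 h1
    refine ⟨Real.exp (2 ^ (t + 1) * s ^ 2) + 1 +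
      ∑ n ∈ Finset.range n0, |r (completeBipartiteGraph (Fin s) (Fin t)) (s * t) (μ n) n|, fun n => ?_⟩
    have e : (Set.ncard {f : Fin s ⊕ Fin t → Fin n | Function.Injective f ∧
                ∀ i j, (completeBipartiteGraph (Fin s) (Fin t)).Adj i j → (Gr (μ n) n).Adj (f i) (f j)} : ℝ) /
              ((n.descFactorial (s + t) : ℝ) * q (μ n) ^ (s * t)) =
        r (completeBipartiteGraph (Fin s) (Fin t)) (s * t) (μ n) n := by
      unfold r
      rw [Fintype.card_sum, Fintype.card_fin, Fintype.card_fin]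
    rw [e]
    have hpos : 0 ≤ Real.exp (2 ^ (t + 1) * s ^ 2) := (Real.exp_pos _).le
    have hsum : 0 ≤ ∑ n ∈ Finset.range n0,
        |r (completeBipartiteGraph (Fin s) (Fin t)) (s * t) (μ n) n| :=
      Finset.sum_nonneg fun _ _ => abs_nonneg _
    rcases lt_or_ge n n0 with hn | hn
    · have := Finset.single_le_sum
        (f := fun n => |r (completeBipartiteGraph (Fin s) (Fin t)) (s * t) (μ n) n|)
        (fun _ _ => abs_nonneg _) (Finset.mem_range.2 hn)
      have h2 := le_abs_self (r (completeBipartiteGraph (Fin s) (Fin t)) (s * t) (μ n) n)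
      linarith
    · have := hn0 n hn
      linarith

end Pool.Agent.S11986
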