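import Pool.Statements.S16915

set_option autoImplicit false
open MeasureTheory
open Pool Pool.MP_4fa6ed_nt

namespace Pool.Agent.S16915

/-- `x / y = X / (X - 1)` with `a1 ∣ X`, `a2 ∣ X - 1`, and `x - y` dividing both. -/
def Rel (a1 a2 B : ℤ) (x y : ℤ) : Prop :=
  ∃ D X : ℤ, 0 < D ∧ B ≤ X ∧ x = D * X ∧ y = D * (X - 1) ∧ a1 ∣ X ∧ a2 ∣ X - 1

theorem split_coprime (a : ℕ) : ∀ E : ℕ, 0 < E →
    ∃ E' E'' N : ℕ, E = E' * E'' ∧ E' ∣ a ^ N ∧ Nat.Coprime E'' a := by
  intro E
  induction E using Nat.strong_induction_on with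
  | _ E ih =>
    intro hE
    by_cases h : Nat.Coprime E a
    · exact ⟨1, E, 0, by simp, by simp, h⟩
    · obtain ⟨E1, hE1⟩ := Nat.gcd_dvd_left E a
      set g := Nat.gcd E a with hg
      have hg1 : g ≠ 1 := h
      have hg0 : 0 < g := Nat.gcd_pos_of_pos_left _ hE
      have hE10 : 0 < E1 := by
        rcases Nat.eq_zero_or_pos E1 with h0 | h0
        · rw [h0, mul_zero] at hE1; omega
        · exact h0
      have hlt : E1 < E := by
        have : 2 ≤ g := by omega
        nlinarith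
      obtain ⟨F', F'', N, h1, h2, h3⟩ := ih E1 hlt hE10
      refine ⟨g * F', F'', N + 1, ?_, ?_, h3⟩
      · rw [mul_assoc, ← h1]; exact hE1
      · rw [pow_succ, mul_comm (a ^ N)]
        exact Nat.mul_dvd_mul (Nat.gcd_dvd_right E a) h2

theorem coprime_list_prod (a s : ℤ) : ∀ l : List ℤ, (∀ x ∈ l, IsCoprime (s - x) a) →
    IsCoprime ((l.map fun x => s - x).prod) a := by
  intro l
  induction l with
  | nil => intro _; simpa using isCoprime_one_left
  | cons x l ih =>
    intro h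
    rw [List.map_cons, List.prod_cons]
    exact IsCoprime.mul_left (h x (by simp)) (ih fun y hy => h y (by simp [hy]))

theorem list_prod_pos : ∀ l : List ℤ, (∀ x ∈ l, 0 < x) → 0 < l.prod := by
  intro l
  induction l with
  | nil => intro _; simp
  | cons x l ih =>
    intro h
    rw [List.prod_cons]
    exact mul_pos (h x (by simp)) (ih fun y hy => h y (by simp [hy]))

theorem le_list_sum : ∀ l : List ℤ, (∀ x ∈ l, 0 < x) → ∀ x ∈ l, x ≤ l.sum := by
  intro l
  induction l with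
  | nil => intro _ x hx; simp at hx
  | cons y l ih =>
    intro h x hx
    rw [List.sum_cons]
    have hs : 0 ≤ l.sum := List.sum_nonneg fun z hz => (h z (by simp [hz])).le
    rcases List.mem_cons.mp hx with rfl | hx
    · linarith
    · have := ih (fun z hz => h z (by simp [hz])) x hx
      have := h y (by simp)
      linarith

theorem step (a1 a2 B : ℤ) (h1 : 0 < a1) (h2 : 0 < a2) (hc : IsCoprime a1 a2) (l : List ℤ)
    (hpos : ∀ x ∈ l, 0 < x) (hl : l.Pairwise (Rel a1 a2 0)) (hB : 0 ≤ B) :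
    ∃ l' : List ℤ, l'.length = l.length + 1 ∧ (∀ x ∈ l', 0 < x) ∧ l'.Pairwise (Rel a1 a2 B) := by
  -- scale by a2
  set k : List ℤ := l.map (fun x => a2 * x) with hk
  have kpos : ∀ x ∈ k, 0 < x := by
    intro x hx
    rw [hk, List.mem_map] at hx
    obtain ⟨y, hy, rfl⟩ := hx
    exact mul_pos h2 (hpos y hy)
  have kdvd : ∀ x ∈ k, a2 ∣ x := by
    intro x hx
    rw [hk, List.mem_map] at hx
    obtain ⟨y, hy, rfl⟩ := hx
    exact dvd_mul_right _ _
  have kl : k.Pairwise (Rel a1 a2 0) := by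
    rw [hk, List.pairwise_map]
    refine hl.imp ?_
    rintro x y ⟨D, X, hD, hX, hx, hy, h3, h4⟩
    exact ⟨a2 * D, X, mul_pos h2 hD, hX, by rw [hx]; ring, by rw [hy]; ring, h3, h4⟩
  have klen : k.length = l.length := by rw [hk, List.length_map]
  have hE : 0 < k.prod := list_prod_pos k kpos
  obtain ⟨E1, E2, N, hE12, hE1, hE2⟩ := split_coprime a2.natAbs k.prod.natAbs
    (Int.natAbs_pos.mpr hE.ne')
  have hE12' : k.prod = (E1 : ℤ) * E2 := by
    have : ((k.prod.natAbs : ℕ) : ℤ) = k.prod := Int.natAbs_of_nonneg hE.le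
    rw [← this, hE12]; push_cast; rfl
  have ha2 : ((a2.natAbs : ℕ) : ℤ) = a2 := Int.natAbs_of_nonneg h2.le
  have hE1' : (E1 : ℤ) ∣ a2 ^ N := by
    have : ((E1 : ℕ) : ℤ) ∣ ((a2.natAbs ^ N : ℕ) : ℤ) := Int.natCast_dvd_natCast.mpr hE1
    rw [Nat.cast_pow, ha2] at this
    exact this
  have hE2' : IsCoprime (E2 : ℤ) a2 := by
    rw [← ha2]
    exact Nat.isCoprime_iff_coprime.mpr hE2
  have hE2pos : (0 : ℤ) < E2 := by
    have hne : E2 ≠ 0 := by
      intro h0
      rw [hE12', h0] at hE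
      simp at hE
    exact_mod_cast Nat.pos_of_ne_zero hne
  -- choose s
  set S := k.sum with hS
  have hS0 : 0 ≤ S := List.sum_nonneg fun z hz => (kpos z hz).le
  set s : ℤ := a1 * E2 * (1 + a2 * (S + 1)) with hs
  have hsS : S < s := by
    have e1 : 1 ≤ a1 * E2 := by
      have := mul_pos h1 hE2pos
      linarith
    have e2 : S + 1 ≤ a2 * (S + 1) := by nlinarith
    rw [hs]
    nlinarith
  have hsk : ∀ x ∈ k, x < s := fun x hx => lt_of_le_of_lt (le_list_sum k kpos x hx) hsS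
  have hsc : IsCoprime s a2 := by
    rw [hs]
    refine IsCoprime.mul_left (IsCoprime.mul_left hc hE2') ?_
    exact ⟨1, -(S + 1), by ring⟩
  have hsxc : ∀ x ∈ k, IsCoprime (s - x) a2 := by
    intro x hx
    obtain ⟨c, hc⟩ := kdvd x hx
    obtain ⟨u, v, huv⟩ := hsc
    exact ⟨u, v + u * c, by rw [hc]; linear_combination huv⟩
  set P : ℤ := (k.map fun x => s - x).prod with hP
  have hPc : IsCoprime P a2 := coprime_list_prod a2 s k hsxc
  set m1 : ℤ := a2 ^ (N + 1) with hm1
  set m2 : ℤ := a1 * E2 * P with hm2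
  have hm1pos : 0 < m1 := pow_pos h2 _
  have hPpos : 0 < P := by
    rw [hP]
    refine list_prod_pos _ ?_
    intro z hz
    rw [List.mem_map] at hz
    obtain ⟨x, hx, rfl⟩ := hz
    have := hsk x hx
    linarith
  have hm2pos : 0 < m2 := mul_pos (mul_pos h1 hE2pos) hPpos
  have hmc : IsCoprime m1 m2 := by
    rw [hm1]
    refine IsCoprime.pow_left ?_
    exact (IsCoprime.mul_left (IsCoprime.mul_left hc hE2') hPc).symm
  obtain ⟨u, v, huv⟩ := hmc
  -- choose M
  set t : ℤ := |s * u * m1| + B * s + s + 1 with ht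
  have hspos : 0 < s := by linarith
  set M : ℤ := -(s * u * m1) + m1 * m2 * t with hM
  have htpos : 0 < t := by
    have := abs_nonneg (s * u * m1)
    have := mul_nonneg hB hspos.le
    linarith
  have hMbig : B * s + s + 1 ≤ M := by
    have e1 : s * u * m1 ≤ |s * u * m1| := le_abs_self _
    have e2 : 1 ≤ m1 * m2 := by
      have := mul_pos hm1pos hm2pos
      linarith
    have e3 : t ≤ m1 * m2 * t := by nlinarith
    rw [hM]
    linarith
  have hM1 : m1 ∣ M := by
    rw [hM]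
    exact ⟨-(s * u) + m2 * t, by ring⟩
  have hM2 : m2 ∣ M + s := by
    refine ⟨s * v + m1 * t, ?_⟩
    rw [hM]
    linear_combination s * (-huv)
  have hs2 : a1 * E2 ∣ s := by rw [hs]; exact dvd_mul_right _ _
  have hM3 : a1 * E2 ∣ M := by
    have : a1 * E2 ∣ M + s := (dvd_mul_right _ _).trans hM2
    have h5 := dvd_sub this hs2
    simpa using h5
  have hM4 : (a1 * a2) * k.prod ∣ M := by
    have hcop : IsCoprime m1 (a1 * E2) := by
      rw [hm1]
      exact IsCoprime.pow_left (IsCoprime.mul_left hc hE2').symm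
    have h6 : m1 * (a1 * E2) ∣ M := hcop.mul_dvd hM1 hM3
    refine dvd_trans ?_ h6
    obtain ⟨w, hw⟩ := hE1'
    refine ⟨w, ?_⟩
    rw [hm1, hE12', pow_succ, hw]
    ring
  have hMpos : 0 < M := by
    have := mul_nonneg hB hspos.le
    linarith
  refine ⟨(M + s) :: k.map (fun x => M + x), ?_, ?_, ?_⟩
  · rw [List.length_cons, List.length_map, klen]
  · intro x hx
    rcases List.mem_cons.mp hx with rfl | hx
    · linarith
    · rw [List.mem_map] at hx
      obtain ⟨y, hy, rfl⟩ := hx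
      have := kpos y hy
      linarith
  · rw [List.pairwise_cons]
    constructor
    · intro y hy
      rw [List.mem_map] at hy
      obtain ⟨x, hx, rfl⟩ := hy
      have hx1 := hsk x hx
      have hx0 := kpos x hx
      have hD : 0 < s - x := by linarith
      have hdP : s - x ∣ P := by
        rw [hP]
        exact List.dvd_prod (List.mem_map.mpr ⟨x, hx, rfl⟩)
      have hda : a1 * (s - x) ∣ M + s := by
        refine dvd_trans ?_ hM2
        obtain ⟨w, hw⟩ := hdP
        exact ⟨E2 * w, by rw [hm2, hw]; ring⟩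
      obtain ⟨w, hw⟩ := hda
      refine ⟨s - x, a1 * w, hD, ?_, ?_, ?_, dvd_mul_right _ _, ?_⟩
      · -- B ≤ a1 * w
        by_contra hcon
        push Not at hcon
        have e1 : (s - x) * (a1 * w) = M + s := by rw [hw]; ring
        have e2 : (s - x) * (a1 * w) ≤ (s - x) * B :=
          mul_le_mul_of_nonneg_left hcon.le hD.le
        have e3 : (s - x) * B ≤ s * B := mul_le_mul_of_nonneg_right (by linarith) hB
        nlinarith
      · rw [hw]; ring
      · have : M + x = M + s - (s - x) := by ring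
        rw [this, hw]; ring
      · -- a2 ∣ a1 * w - 1
        have e1 : a2 ∣ M + x := by
          refine dvd_add ?_ (kdvd x hx)
          refine dvd_trans ?_ hM1
          rw [hm1, pow_succ]
          exact dvd_mul_left _ _
        have e2 : M + x = (s - x) * (a1 * w - 1) := by
          have : M + x = M + s - (s - x) := by ring
          rw [this, hw]; ring
        rw [e2] at e1
        exact (hsxc x hx).symm.dvd_of_dvd_mul_left e1
    · rw [List.pairwise_map]
      refine kl.imp_of_mem ?_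
      rintro x y hx hy ⟨D, X, hD, hX, hx2, hy2, h3, h4⟩
      have hDE : D ∣ k.prod := (Dvd.intro _ hx2.symm).trans (List.dvd_prod hx)
      have hDM : (a1 * a2) * D ∣ M := (mul_dvd_mul_left _ hDE).trans hM4
      obtain ⟨w, hw⟩ := hDM
      refine ⟨D, a1 * a2 * w + X, hD, ?_, ?_, ?_, ?_, ?_⟩
      · have hxs := hsk x hx
        have hDx : D * X < s := by rw [← hx2]; exact hxs
        have hX1 : 1 ≤ X := by
          have hx0 := kpos x hx
          rw [hx2] at hx0
          by_contra hcon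
          push Not at hcon
          nlinarith
        have hDs : D ≤ s := by nlinarith
        by_contra hcon
        push Not at hcon
        have e1 : D * (a1 * a2 * w + X) = M + x := by rw [hw, hx2]; ring
        have e2 : D * (a1 * a2 * w + X) ≤ D * B := mul_le_mul_of_nonneg_left hcon.le hD.le
        have e3 : D * B ≤ s * B := mul_le_mul_of_nonneg_right hDs hB
        have hx0 := kpos x hx
        nlinarith
      · rw [hw, hx2]; ring
      · rw [hw, hy2]; ring
      · exact dvd_add (by rw [mul_assoc]; exact dvd_mul_right _ _) h3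
      · have : a1 * a2 * w + X - 1 = a1 * a2 * w + (X - 1) := by ring
        rw [this]
        exact dvd_add ⟨a1 * w, by ring⟩ h4

theorem rel_mono {a1 a2 B x y : ℤ} (hB : 0 ≤ B) (h : Rel a1 a2 B x y) : Rel a1 a2 0 x y := by
  obtain ⟨D, X, hD, hX, h⟩ := h
  exact ⟨D, X, hD, hB.trans hX, h⟩

theorem exists_list (a1 a2 B : ℤ) (h1 : 0 < a1) (h2 : 0 < a2) (hc : IsCoprime a1 a2)
    (hB : 0 ≤ B) : ∀ r : ℕ, ∃ l : List ℤ, l.length = r ∧ (∀ x ∈ l, 0 < x) ∧
      l.Pairwise (Rel a1 a2 B) := by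
  intro r
  induction r with
  | zero => exact ⟨[], rfl, by simp, by simp⟩
  | succ r ih =>
    obtain ⟨l, hl, hp, hw⟩ := ih
    obtain ⟨l', hl', hp', hw'⟩ := step a1 a2 B h1 h2 hc l hp (hw.imp fun h => rel_mono hB h) hB
    exact ⟨l', by rw [hl', hl], hp', hw'⟩

/-- Splitting of `a`. -/
theorem split_a (a : ℕ) (b d : ℤ) (ha : 0 < a)
    (hg : ∀ k : ℤ, k ∣ (a : ℤ) → k ∣ b → k ∣ d → IsUnit k) (hd : (a : ℤ) ∣ b * d) :
    ∃ a1 a2 : ℤ, 0 < a1 ∧ 0 < a2 ∧ (a : ℤ) = a1 * a2 ∧ IsCoprime a1 a2 ∧ a1 ∣ b ∧ a2 ∣ d := by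
  have ha' : (0 : ℤ) < a := by exact_mod_cast ha
  set g : ℤ := (Int.gcd (a : ℤ) b : ℤ) with hg'
  have hgpos : 0 < g := by
    rw [hg']
    exact_mod_cast Int.gcd_pos_of_ne_zero_left b ha'.ne'
  obtain ⟨a2, ha2⟩ : g ∣ (a : ℤ) := Int.gcd_dvd_left ..
  obtain ⟨b2, hb2⟩ : g ∣ b := Int.gcd_dvd_right ..
  have ha2pos : 0 < a2 := by
    by_contra hcon
    push Not at hcon
    nlinarith
  have hcop : IsCoprime a2 b2 := by
    rw [Int.isCoprime_iff_gcd_eq_one]
    have h1 := Int.gcd_div_gcd_div_gcd (i := (a : ℤ)) (j := b) (by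
      exact Int.gcd_pos_of_ne_zero_left b ha'.ne')
    rw [← hg'] at h1
    rw [ha2, hb2] at h1
    rw [Int.mul_ediv_cancel_left _ hgpos.ne', Int.mul_ediv_cancel_left _ hgpos.ne'] at h1
    exact h1
  have ha2d : a2 ∣ d := by
    have h1 : g * a2 ∣ g * (b2 * d) := by
      rw [← ha2, ← mul_assoc, ← hb2]; exact hd
    have h2 : a2 ∣ b2 * d := (mul_dvd_mul_iff_left hgpos.ne').mp h1
    exact hcop.dvd_of_dvd_mul_left h2
  have hcop2 : IsCoprime g a2 := by
    rw [Int.isCoprime_iff_gcd_eq_one]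
    have h1 := hg (Int.gcd g a2 : ℤ) ((Int.gcd_dvd_left ..).trans ⟨a2, ha2⟩)
      ((Int.gcd_dvd_left ..).trans ⟨b2, hb2⟩) ((Int.gcd_dvd_right ..).trans ha2d)
    have h2 := Int.isUnit_iff.mp h1
    rcases h2 with h2 | h2
    · exact_mod_cast h2
    · omega
  exact ⟨g, a2, hgpos, ha2pos, ha2, hcop2, ⟨b2, hb2⟩, ha2d⟩

/-- The case `d < b`. -/
theorem case_lt (a : ℕ) (b d : ℤ) (ha : 0 < a)
    (hg : ∀ k : ℤ, k ∣ (a : ℤ) → k ∣ b → k ∣ d → IsUnit k) (hd : (a : ℤ) ∣ b * d) (hbd : d < b)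
    (X : Type) [MeasurableSpace X] (μ : Measure X) [IsProbabilityMeasure μ]
    (T : ℚ → X → X)
    (hT : ∀ q r : ℚ, 0 < q → 0 < r → T (q * r) = T q ∘ T r)
    (hm : ∀ q : ℚ, 0 < q → MeasurePreserving (T q) μ μ)
    (A : Set X) (hA : MeasurableSet A) (hA0 : 0 < μ A) :
    ∃ n : ℕ, 0 < n ∧ 0 < (a : ℤ) * n + b ∧ 0 < (a : ℤ) * n + d ∧
      0 < μ (A ∩ T (((a : ℚ) * n + b) / ((a : ℚ) * n + d)) ⁻¹' A) := by
  obtain ⟨a1, a2, h1, h2, haa, hc, hb1, hd2⟩ := split_a a b d ha hg hd
  set B : ℤ := |b| + |d| + a + 2 with hB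
  have hB0 : 2 ≤ B := by
    have := abs_nonneg b
    have := abs_nonneg d
    have : (0 : ℤ) ≤ a := by positivity
    omega
  obtain ⟨r, hr⟩ : ∃ r : ℕ, 1 < (r : ENNReal) * μ A := by
    obtain ⟨r, hr⟩ := ENNReal.exists_nat_mul_gt hA0.ne' ENNReal.one_ne_top
    exact ⟨r, hr⟩
  obtain ⟨l, hl, hp, hw⟩ := exists_list a1 a2 B h1 h2 hc (by omega) r
  have hget : ∀ i : Fin l.length, 0 < l.get i := fun i => hp _ (l.get_mem i)
  have hgetQ : ∀ i : Fin l.length, (0 : ℚ) < ((l.get i : ℤ) : ℚ) := fun i => by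
    exact_mod_cast hget i
  set f : Fin l.length → Set X := fun i => T ((l.get i : ℤ) : ℚ) ⁻¹' A with hf
  have hfm : ∀ i, MeasurableSet (f i) := fun i => (hm _ (hgetQ i)).measurable hA
  have hfμ : ∀ i, μ (f i) = μ A := fun i => (hm _ (hgetQ i)).measure_preimage hA.nullMeasurableSet
  have key : ∃ i j : Fin l.length, i < j ∧ 0 < μ (f i ∩ f j) := by
    by_contra hcon
    push Not at hcon
    have hdis : Set.Pairwise (((Finset.univ : Finset (Fin l.length)) : Set (Fin l.length)))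
        (Function.onFun (AEDisjoint μ) f) := by
      intro i _ j _ hij
      show μ (f i ∩ f j) = 0
      rcases lt_or_gt_of_ne hij with h | h
      · exact le_antisymm (hcon i j h) zero_le
      · rw [Set.inter_comm]; exact le_antisymm (hcon j i h) zero_le
    have h3 := measure_biUnion_finset₀ hdis (fun i _ => (hfm i).nullMeasurableSet)
    have h4 : μ (⋃ b ∈ (Finset.univ : Finset (Fin l.length)), f b) ≤ 1 := prob_le_one
    rw [h3] at h4
    simp only [hfμ, Finset.sum_const, Finset.card_univ, Fintype.card_fin, nsmul_eq_mul, hl] at h4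
    exact absurd hr (not_lt.mpr h4)
  obtain ⟨i, j, hij, hpos⟩ := key
  obtain ⟨D, Y, hD, hBY, hxi, hxj, h5, h6⟩ := (List.pairwise_iff_get.mp hw) i j hij
  -- k = b - d
  have hk : 1 ≤ b - d := by omega
  have hY0 : 2 ≤ Y := hB0.trans hBY
  have hdiv : (a : ℤ) ∣ (b - d) * Y - b := by
    rw [haa]
    refine hc.mul_dvd (dvd_sub (h5.mul_left _) hb1) ?_
    have : (b - d) * Y - b = (b - d) * (Y - 1) - d := by ring
    rw [this]
    exact dvd_sub (h6.mul_left _) hd2
  obtain ⟨n, hn⟩ := hdiv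
  have ha' : (0 : ℤ) < a := by exact_mod_cast ha
  have hn1 : 0 < n := by
    have e1 : b ≤ |b| := le_abs_self b
    have e2 : Y ≤ (b - d) * Y := by nlinarith
    have e3 : 0 ≤ |d| := abs_nonneg d
    have e4 : 0 < (a : ℤ) * n := by rw [← hn]; linarith
    by_contra hcon
    push Not at hcon
    nlinarith
  refine ⟨n.toNat, by omega, ?_, ?_, ?_⟩
  · have : ((n.toNat : ℕ) : ℤ) = n := Int.toNat_of_nonneg hn1.le
    rw [this, ← hn]
    have : 0 < (b - d) * Y := by nlinarith
    linarith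
  · have : ((n.toNat : ℕ) : ℤ) = n := Int.toNat_of_nonneg hn1.le
    rw [this, ← hn]
    have : 0 < (b - d) * (Y - 1) := mul_pos (by omega) (by omega)
    linarith
  · have hnn : ((n.toNat : ℕ) : ℤ) = n := Int.toNat_of_nonneg hn1.le
    have hnq : ((n.toNat : ℕ) : ℚ) = (n : ℚ) := by
      have : (((n.toNat : ℕ) : ℤ) : ℚ) = (n : ℚ) := by rw [hnn]
      rw [← this, Int.cast_natCast]
    have hbQ : (0 : ℚ) < (b : ℚ) - d := by
      have : (d : ℚ) < b := by exact_mod_cast hbd
      linarith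
    have hYQ : (2 : ℚ) ≤ (Y : ℚ) := by exact_mod_cast hY0
    have hDQ : (0 : ℚ) < (D : ℚ) := by exact_mod_cast hD
    have hnQ : (a : ℚ) * n = ((b : ℚ) - d) * Y - b := by
      have : (((b - d) * Y - b : ℤ) : ℚ) = (((a : ℤ) * n : ℤ) : ℚ) := by rw [hn]
      push_cast at this
      linarith
    set q : ℚ := ((a : ℚ) * (n.toNat : ℕ) + b) / ((a : ℚ) * (n.toNat : ℕ) + d) with hq
    have hq2 : q = (Y : ℚ) / (Y - 1) := by
      rw [hq, hnq, hnQ]
      have e1 : ((b : ℚ) - d) * Y - b + b = ((b : ℚ) - d) * Y := by ring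
      have e2 : ((b : ℚ) - d) * Y - b + d = ((b : ℚ) - d) * (Y - 1) := by ring
      rw [e1, e2, mul_div_mul_left _ _ hbQ.ne']
    have hq0 : 0 < q := by
      rw [hq2]
      exact div_pos (by linarith) (by linarith)
    have hxiq : ((l.get i : ℤ) : ℚ) = q * ((l.get j : ℤ) : ℚ) := by
      rw [hxi, hxj, hq2]
      push_cast
      have : (Y : ℚ) - 1 ≠ 0 := by linarith
      field_simp
    have hset : f i ∩ f j = T ((l.get j : ℤ) : ℚ) ⁻¹' (A ∩ T q ⁻¹' A) := by
      simp only [hf]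
      rw [hxiq, hT q _ hq0 (hgetQ j), Set.preimage_comp, Set.preimage_inter, Set.inter_comm]
    rw [hset, (hm _ (hgetQ j)).measure_preimage
      (hA.inter ((hm q hq0).measurable hA)).nullMeasurableSet] at hpos
    exact hpos

/-- If a≥1, gcd(a,b,d)=1, and b=d or a divides bd, then for every measure-preserving action of the positive rationals under multiplication and every positive-measure set A, some ratio (an+b)/(an+d) with n≥1 and both terms positive returns A to itself in positive measure. -/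
theorem result :
    ∀ (a : ℕ) (b d : ℤ), 0 < a →
      (∀ k : ℤ, k ∣ (a : ℤ) → k ∣ b → k ∣ d → IsUnit k) →
      (b = d ∨ (a : ℤ) ∣ b * d) →
      ∀ (X : Type) [MeasurableSpace X] (μ : Measure X) [IsProbabilityMeasure μ]
        (T : ℚ → X → X),
        T 1 = id →
        (∀ q r : ℚ, 0 < q → 0 < r → T (q * r) = T q ∘ T r) →
        (∀ q : ℚ, 0 < q → MeasurePreserving (T q) μ μ) →
        ∀ A : Set X, MeasurableSet A → 0 < μ A →
          ∃ n : ℕ, 0 < n ∧ 0 < (a : ℤ) * n + b ∧ 0 < (a : ℤ) * n + d ∧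
            0 < μ (A ∩ T (((a : ℚ) * n + b) / ((a : ℚ) * n + d)) ⁻¹' A) := by
  intro a b d ha hg hbd X _ μ _ T hT1 hT hm A hA hA0
  rcases lt_trichotomy d b with h | h | h
  · have hd : (a : ℤ) ∣ b * d := by
      rcases hbd with h' | h'
      · omega
      · exact h'
    exact case_lt a b d ha hg hd h X μ T hT hm A hA hA0
  · subst h
    have ha' : (1 : ℤ) ≤ a := by exact_mod_cast ha
    have hn : 0 < (a : ℤ) * ((d.natAbs + 1 : ℕ) : ℤ) + d := by
      push_cast
      have := neg_abs_le d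
      have := abs_nonneg d
      nlinarith
    refine ⟨d.natAbs + 1, by omega, hn, hn, ?_⟩
    have hne : (a : ℚ) * ((d.natAbs + 1 : ℕ) : ℚ) + d ≠ 0 := by
      have h1 : ((0 : ℤ) : ℚ) < (((a : ℤ) * ((d.natAbs + 1 : ℕ) : ℤ) + d : ℤ) : ℚ) :=
        Int.cast_lt.mpr hn
      rw [Int.cast_add, Int.cast_mul, Int.cast_natCast, Int.cast_natCast, Int.cast_zero] at h1
      exact h1.ne'
    rw [div_self hne, hT1, Set.preimage_id, Set.inter_self]
    exact hA0
  · have hd : (a : ℤ) ∣ b * d := by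
      rcases hbd with h' | h'
      · omega
      · exact h'
    obtain ⟨n, hn, h1, h2, h3⟩ := case_lt a d b ha (fun k h1 h2 h3 => hg k h1 h3 h2)
      (by rw [mul_comm]; exact hd) h X μ T hT hm A hA hA0
    refine ⟨n, hn, h2, h1, ?_⟩
    have hp1 : (0 : ℚ) < (a : ℚ) * n + d := by exact_mod_cast h1
    have hp2 : (0 : ℚ) < (a : ℚ) * n + b := by exact_mod_cast h2
    set q : ℚ := ((a : ℚ) * n + d) / ((a : ℚ) * n + b) with hq
    set q' : ℚ := ((a : ℚ) * n + b) / ((a : ℚ) * n + d) with hq'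
    have hq0 : 0 < q := div_pos hp1 hp2
    have hq0' : 0 < q' := div_pos hp2 hp1
    have hqq : q * q' = 1 := by
      rw [hq, hq']
      field_simp
    have h4 : T q' ⁻¹' (A ∩ T q ⁻¹' A) = A ∩ T q' ⁻¹' A := by
      rw [Set.preimage_inter, ← Set.preimage_comp, ← hT q q' hq0 hq0', hqq, hT1, Set.preimage_id,
        Set.inter_comm]
    rw [← h4, (hm q' hq0').measure_preimage
      (hA.inter ((hm q hq0).measurable hA)).nullMeasurableSet]
    exact h3

end Pool.Agent.S16915
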